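import Mathlib

set_option autoImplicit false

/-!
# Predimension for colourings of triples

`χ` colours the 3-element subsets of `ℕ` (colours are finite sets of natural numbers).
`del χ B = |B| + (number of colours on B) - (number of triples of B)`.
-/

namespace H487A

open Finset

abbrev FS := Finset ℕ

/-- the triples in `B` -/
def P3 (B : FS) : Finset FS := B.powersetCard 3

theorem mem_P3 {B T : FS} : T ∈ P3 B ↔ T ⊆ B ∧ T.card = 3 := by
  simp [P3, mem_powersetCard]

theorem P3_mono {A B : FS} (h : A ⊆ B) : P3 A ⊆ P3 B := by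
  intro T hT
  rw [mem_P3] at hT ⊢
  exact ⟨hT.1.trans h, hT.2⟩

theorem P3_inter (A B : FS) : P3 A ∩ P3 B = P3 (A ∩ B) := by
  ext T
  simp only [mem_inter, mem_P3, subset_inter_iff]
  tauto

/-- excess of a set of triples -/
def rr (χ : FS → FS) (S : Finset FS) : ℤ := S.card - (S.image χ).card

theorem rr_nonneg (χ : FS → FS) (S : Finset FS) : 0 ≤ rr χ S := by
  unfold rr
  have := card_image_le (s := S) (f := χ)
  omega

theorem rr_insert_le (χ : FS → FS) (S : Finset FS) (x : FS) : rr χ S ≤ rr χ (insert x S) := by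
  unfold rr
  by_cases h : x ∈ S
  · rw [insert_eq_of_mem h]
  · rw [card_insert_of_notMem h, image_insert]
    have := card_insert_le (χ x) (S.image χ)
    push_cast
    omega

theorem rr_insert_mem (χ : FS → FS) (S : Finset FS) (x : FS) (h : x ∉ S)
    (hc : χ x ∈ S.image χ) : rr χ (insert x S) = rr χ S + 1 := by
  unfold rr
  rw [card_insert_of_notMem h, image_insert, insert_eq_of_mem hc]
  push_cast
  ring

theorem rr_mono (χ : FS → FS) {S T : Finset FS} (h : S ⊆ T) : rr χ S ≤ rr χ T := by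
  have key : ∀ U : Finset FS, rr χ S ≤ rr χ (U ∪ S) := by
    intro U
    induction U using Finset.induction_on with
    | empty => simp
    | insert x U _ ih =>
      rw [insert_union]
      exact ih.trans (rr_insert_le _ _ _)
  have := key T
  rwa [union_eq_left.mpr h] at this

theorem rr_sup (χ : FS → FS) (S T : Finset FS) :
    rr χ S + rr χ T ≤ rr χ (S ∪ T) + rr χ (S ∩ T) := by
  unfold rr
  have h1 := card_union_add_card_inter S T
  have h2 := card_union_add_card_inter (S.image χ) (T.image χ)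
  have h3 : ((S ∩ T).image χ).card ≤ (S.image χ ∩ T.image χ).card :=
    card_le_card (image_inter_subset _ _ _)
  rw [image_union]
  omega

/-- the predimension -/
def del (χ : FS → FS) (B : FS) : ℤ := B.card - rr χ (P3 B)

theorem del_submod (χ : FS → FS) (A B : FS) :
    del χ (A ∪ B) + del χ (A ∩ B) ≤ del χ A + del χ B := by
  unfold del
  have h1 := card_union_add_card_inter A B
  have h2 := rr_sup χ (P3 A) (P3 B)
  rw [P3_inter] at h2
  have h3 : rr χ (P3 A ∪ P3 B) ≤ rr χ (P3 (A ∪ B)) := by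
    apply rr_mono
    apply union_subset
    · exact P3_mono subset_union_left
    · exact P3_mono subset_union_right
  have h4 : ((A ∪ B).card : ℤ) + (A ∩ B).card = A.card + B.card := by exact_mod_cast h1
  linarith

/-- `A` is strong in `V` -/
def Str (χ : FS → FS) (A V : FS) : Prop :=
  A ⊆ V ∧ ∀ B, A ⊆ B → B ⊆ V → del χ A ≤ del χ B

theorem Str.refl (χ : FS → FS) (V : FS) : Str χ V V :=
  ⟨Subset.rfl, fun B h1 h2 => by rw [Subset.antisymm h1 h2]⟩

theorem Str.trans {χ : FS → FS} {A V W : FS} (h1 : Str χ A V) (h2 : Str χ V W) : Str χ A W := by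
  refine ⟨h1.1.trans h2.1, fun B hB hB' => ?_⟩
  have h3 := del_submod χ B V
  have h4 := h2.2 (B ∪ V) subset_union_right (union_subset hB' h2.1)
  have h5 := h1.2 (B ∩ V) (subset_inter hB h1.1) inter_subset_right
  linarith

theorem Str.mid {χ : FS → FS} {A V W : FS} (h1 : Str χ A W) (h2 : A ⊆ V) (h3 : V ⊆ W) :
    Str χ A V := ⟨h2, fun B h4 h5 => h1.2 B h4 (h5.trans h3)⟩

/-- agreement of colourings on the triples of `V` -/
def Agr (χ χ' : FS → FS) (V : FS) : Prop := ∀ T ∈ P3 V, χ' T = χ T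

theorem rr_congr {χ χ' : FS → FS} {S : Finset FS} (h : ∀ T ∈ S, χ' T = χ T) :
    rr χ' S = rr χ S := by
  unfold rr
  rw [image_congr (fun T hT => h T hT)]

theorem del_congr {χ χ' : FS → FS} {V B : FS} (h : Agr χ χ' V) (hB : B ⊆ V) :
    del χ' B = del χ B := by
  unfold del
  rw [rr_congr (fun T hT => h T (P3_mono hB hT))]

theorem Str.congr {χ χ' : FS → FS} {A V : FS} (h : Agr χ χ' V) (hA : Str χ A V) :
    Str χ' A V := by
  refine ⟨hA.1, fun B h1 h2 => ?_⟩
  rw [del_congr h hA.1, del_congr h h2]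
  exact hA.2 B h1 h2

/-- a finite stage -/
structure Stage (V : FS) (χ : FS → FS) : Prop where
  p4 : ∀ B ⊆ V, 4 ≤ B.card → 4 ≤ del χ B
  cs : ∀ T ∈ P3 V, χ T ⊆ V

/-- two distinct triples of the same colour span at least five points -/
theorem Stage.sep {V : FS} {χ : FS → FS} (h : Stage V χ) {T T' : FS} (hT : T ∈ P3 V)
    (hT' : T' ∈ P3 V) (hne : T ≠ T') (hc : χ T = χ T') : 5 ≤ (T ∪ T').card := by
  rw [mem_P3] at hT hT'
  by_contra hlt
  have h4 : 4 ≤ (T ∪ T').card := by
    by_contra h4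
    have h5 : T ∪ T' = T := by
      symm
      apply eq_of_subset_of_card_le subset_union_left
      omega
    have h6 : T' ⊆ T := by rw [← h5]; exact subset_union_right
    exact hne (eq_of_subset_of_card_le h6 (by omega)).symm
  have h5 : (T ∪ T').card = 4 := by omega
  have h6 := h.p4 (T ∪ T') (union_subset hT.1 hT'.1) h4
  have h7 : (1 : ℤ) ≤ rr χ (P3 (T ∪ T')) := by
    have a1 : ({T, T'} : Finset FS) ⊆ P3 (T ∪ T') := by
      intro S hS
      rw [mem_insert, mem_singleton] at hS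
      rcases hS with rfl | rfl
      · exact mem_P3.mpr ⟨subset_union_left, hT.2⟩
      · exact mem_P3.mpr ⟨subset_union_right, hT'.2⟩
    have a2 := rr_mono χ a1
    have a3 : rr χ ({T, T'} : Finset FS) = 1 := by
      rw [rr_insert_mem χ {T'} T (by simpa using hne) (by simp [hc])]
      simp [rr]
    linarith
  unfold del at h6
  rw [h5] at h6
  push_cast at h6
  linarith

theorem del_small (χ : FS → FS) {B : FS} (h : B.card ≤ 3) : del χ B = B.card := by
  unfold del
  have : rr χ (P3 B) = 0 := by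
    unfold rr
    have h1 : (P3 B).card ≤ 1 := by
      unfold P3
      rw [card_powersetCard]
      interval_cases hB : B.card <;> simp [Nat.choose]
    rcases Nat.lt_or_ge (P3 B).card 1 with h2 | h2
    · have h3 : P3 B = ∅ := by rw [← card_eq_zero]; omega
      rw [h3]; simp
    · have h3 : (P3 B).card = 1 := by omega
      obtain ⟨x, hx⟩ := card_eq_one.mp h3
      rw [hx]; simp
  rw [this]; ring

theorem Stage.four {V : FS} {χ : FS → FS} (h : Stage V χ) {Q : FS} (hQ : Q ⊆ V)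
    (hc : Q.card = 4) : del χ Q = 4 := by
  have h1 := h.p4 Q hQ (by omega)
  have h2 := rr_nonneg χ (P3 Q)
  unfold del at h1 ⊢
  rw [hc] at h1 ⊢
  push_cast at h1 ⊢
  linarith

theorem Stage.strFour {V : FS} {χ : FS → FS} (h : Stage V χ) {Q : FS} (hQ : Q ⊆ V)
    (hc : Q.card = 4) : Str χ Q V := by
  refine ⟨hQ, fun B h1 h2 => ?_⟩
  rw [h.four hQ hc]
  exact h.p4 B h2 (by rw [← hc]; exact card_le_card h1)

/-- image of a finite set under a permutation -/
def mp (σ : Equiv.Perm ℕ) (T : FS) : FS := T.map σ.toEmbedding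

theorem mem_mp {σ : Equiv.Perm ℕ} {T : FS} {x : ℕ} : x ∈ mp σ T ↔ σ⁻¹ x ∈ T := by
  unfold mp
  rw [mem_map_equiv]
  rfl

theorem mem_mp_apply {σ : Equiv.Perm ℕ} {T : FS} {x : ℕ} : σ x ∈ mp σ T ↔ x ∈ T := by
  rw [mem_mp]; simp

theorem card_mp (σ : Equiv.Perm ℕ) (T : FS) : (mp σ T).card = T.card := card_map _

theorem mp_inj (σ : Equiv.Perm ℕ) {S T : FS} : mp σ S = mp σ T ↔ S = T :=
  map_inj

theorem mp_subset (σ : Equiv.Perm ℕ) {S T : FS} : mp σ S ⊆ mp σ T ↔ S ⊆ T :=
  map_subset_map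

theorem mp_mul (σ τ : Equiv.Perm ℕ) (T : FS) : mp (σ * τ) T = mp σ (mp τ T) := by
  ext x; simp [mem_mp]

theorem mp_inv_mp (σ : Equiv.Perm ℕ) (T : FS) : mp σ⁻¹ (mp σ T) = T := by
  ext x; simp [mem_mp]

theorem mp_mp_inv (σ : Equiv.Perm ℕ) (T : FS) : mp σ (mp σ⁻¹ T) = T := by
  ext x; simp [mem_mp]

theorem mp_congr {σ τ : Equiv.Perm ℕ} {T : FS} (h : ∀ x ∈ T, σ x = τ x) : mp σ T = mp τ T := by
  apply Finset.ext
  intro x
  constructor
  · intro hx
    rw [mem_mp] at hx
    have := h _ hx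
    have h2 : x = τ (σ⁻¹ x) := by rw [← this]; simp
    rw [h2]
    exact mem_mp_apply.mpr hx
  · intro hx
    rw [mem_mp] at hx
    have := h _ hx
    have h2 : x = σ (τ⁻¹ x) := by rw [this]; simp
    rw [h2]
    exact mem_mp_apply.mpr hx

theorem mp_union (σ : Equiv.Perm ℕ) (S T : FS) : mp σ (S ∪ T) = mp σ S ∪ mp σ T := by
  ext x; simp [mem_mp]

theorem mp_insert (σ : Equiv.Perm ℕ) (x : ℕ) (T : FS) : mp σ (insert x T) = insert (σ x) (mp σ T) := by
  unfold mp
  rw [map_insert]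
  rfl

theorem P3_mp (σ : Equiv.Perm ℕ) (B : FS) : P3 (mp σ B) = (P3 B).image (mp σ) := by
  ext T
  rw [mem_image, mem_P3]
  constructor
  · rintro ⟨h1, h2⟩
    refine ⟨mp σ⁻¹ T, mem_P3.mpr ⟨?_, by rw [card_mp, h2]⟩, mp_mp_inv _ _⟩
    rw [← mp_subset σ, mp_mp_inv]
    exact h1
  · rintro ⟨S, hS, rfl⟩
    rw [mem_P3] at hS
    exact ⟨(mp_subset σ).mpr hS.1, by rw [card_mp, hS.2]⟩

theorem mp_mem_P3 {σ : Equiv.Perm ℕ} {B T : FS} (h : T ∈ P3 B) : mp σ T ∈ P3 (mp σ B) := by
  rw [P3_mp]; exact mem_image_of_mem _ h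

/-- `σ` preserves equality of colours on the triples of `A` -/
def Iso (χ : FS → FS) (σ : Equiv.Perm ℕ) (A : FS) : Prop :=
  ∀ T ∈ P3 A, ∀ T' ∈ P3 A, χ T = χ T' ↔ χ (mp σ T) = χ (mp σ T')

theorem card_image_ker {α β γ : Type*} [DecidableEq α] [DecidableEq β] [DecidableEq γ]
    (s : Finset α) (f : α → β) (g : α → γ) (h : ∀ a ∈ s, ∀ b ∈ s, f a = f b ↔ g a = g b) :
    (s.image f).card = (s.image g).card := by
  have h1 : (s.image f).card = (s.image (fun a => (f a, g a))).card := by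
    have : s.image f = (s.image (fun a => (f a, g a))).image Prod.fst := by
      rw [image_image]; rfl
    rw [this]
    apply card_image_of_injOn
    intro x hx y hy hxy
    simp only [coe_image, Set.mem_image] at hx hy
    obtain ⟨a, ha, rfl⟩ := hx
    obtain ⟨b, hb, rfl⟩ := hy
    simp only at hxy
    rw [Prod.mk.injEq]
    exact ⟨hxy, (h a ha b hb).mp hxy⟩
  have h2 : (s.image g).card = (s.image (fun a => (f a, g a))).card := by
    have : s.image g = (s.image (fun a => (f a, g a))).image Prod.snd := by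
      rw [image_image]; rfl
    rw [this]
    apply card_image_of_injOn
    intro x hx y hy hxy
    simp only [coe_image, Set.mem_image] at hx hy
    obtain ⟨a, ha, rfl⟩ := hx
    obtain ⟨b, hb, rfl⟩ := hy
    simp only at hxy
    rw [Prod.mk.injEq]
    exact ⟨(h a ha b hb).mpr hxy, hxy⟩
  rw [h1, h2]

theorem Iso.mono {χ : FS → FS} {σ : Equiv.Perm ℕ} {A B : FS} (h : Iso χ σ B) (hA : A ⊆ B) :
    Iso χ σ A := fun T hT T' hT' => h T (P3_mono hA hT) T' (P3_mono hA hT')

theorem Iso.del {χ : FS → FS} {σ : Equiv.Perm ℕ} {A : FS} (h : Iso χ σ A) :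
    del χ (mp σ A) = del χ A := by
  unfold H487A.del rr
  rw [card_mp, P3_mp, card_image_of_injective _ (fun S T h => (mp_inj σ).mp h), image_image]
  have := card_image_ker (P3 A) (χ ∘ mp σ) χ (fun T hT T' hT' => (h T hT T' hT').symm)
  rw [this]

theorem Iso.inv {χ : FS → FS} {σ : Equiv.Perm ℕ} {A : FS} (h : Iso χ σ A) :
    Iso χ σ⁻¹ (mp σ A) := by
  intro T hT T' hT'
  rw [P3_mp, mem_image] at hT hT'
  obtain ⟨S, hS, rfl⟩ := hT
  obtain ⟨S', hS', rfl⟩ := hT'
  rw [mp_inv_mp, mp_inv_mp]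
  exact (h S hS S' hS').symm

theorem Iso.congr {χ : FS → FS} {σ τ : Equiv.Perm ℕ} {A : FS} (h : Iso χ σ A)
    (hst : ∀ x ∈ A, τ x = σ x) : Iso χ τ A := by
  intro T hT T' hT'
  rw [mp_congr (fun x hx => hst x ((mem_P3.mp hT).1 hx)),
    mp_congr (fun x hx => hst x ((mem_P3.mp hT').1 hx))]
  exact h T hT T' hT'

theorem Iso.agr {χ χ' : FS → FS} {σ : Equiv.Perm ℕ} {A V : FS} (h : Iso χ σ A)
    (ha : Agr χ χ' V) (h1 : A ⊆ V) (h2 : mp σ A ⊆ V) : Iso χ' σ A := by
  intro T hT T' hT'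
  rw [ha T (P3_mono h1 hT), ha T' (P3_mono h1 hT'), ha _ (P3_mono h2 (mp_mem_P3 hT)),
    ha _ (P3_mono h2 (mp_mem_P3 hT'))]
  exact h T hT T' hT'

end H487A
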