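import Pool.Agent.H487A.Step2

set_option autoImplicit false

/-!
# The limit structure and its homogeneity
-/

namespace H487A

open Finset

/-- a finite stage, bundled -/
structure St where
  V : FS
  χ : FS → FS
  h : Stage V χ

/-- the partial isomorphism `f` on `A` is extended -/
def Handled (S S' : St) (A : FS) (f : ℕ → ℕ) : Prop :=
  ∀ ρ : Equiv.Perm ℕ, (∀ a ∈ A, ρ a = f a) → Str S.χ A S.V → Str S.χ (mp ρ A) S.V →
    Iso S.χ ρ A → ∃ τ : Equiv.Perm ℕ, (∀ a ∈ A, τ a = ρ a) ∧ Iso S'.χ τ S.V ∧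
      Str S'.χ (mp τ S.V) S'.V

theorem add_point (S : St) (m : ℕ) : ∃ S' : St, Ext S.V S.χ S'.V S'.χ ∧ m ∈ S'.V := by
  by_cases h : m ∈ S.V
  · exact ⟨S, Ext.refl _ _, h⟩
  · obtain ⟨h1, h2⟩ := S.h.addOne (s := ∅) (k := ∅) h (empty_subset _) (by
      intro E _ hs
      rw [mem_P3] at hs
      simp at hs)
    exact ⟨⟨_, _, h1⟩, h2, mem_insert_self _ _⟩

theorem next_exists (S : St) (A : FS) (f : ℕ → ℕ) (m : ℕ) :
    ∃ S' : St, Ext S.V S.χ S'.V S'.χ ∧ m ∈ S'.V ∧ Handled S S' A f := by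
  by_cases hex : ∃ ρ : Equiv.Perm ℕ, (∀ a ∈ A, ρ a = f a) ∧ Str S.χ A S.V ∧
      Str S.χ (mp ρ A) S.V ∧ Iso S.χ ρ A
  · obtain ⟨ρ, h1, h2, h3, h4⟩ := hex
    obtain ⟨V', χ', τ, g1, g2, g3, g4, g5⟩ := step _ S.χ S.V A S.V ρ rfl S.h h2 h3 h4 h2.1
      Subset.rfl
    obtain ⟨S'', e1, e2⟩ := add_point ⟨V', χ', g1⟩ m
    refine ⟨S'', g2.trans e1, e2, ?_⟩
    intro ρ' h1' _ _ _
    refine ⟨τ, fun a ha => by rw [g3 a ha, h1 a ha, h1' a ha], ?_, e1.strong g5⟩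
    exact g4.agr e1.agr g2.sub g5.1
  · obtain ⟨S'', e1, e2⟩ := add_point S m
    refine ⟨S'', e1, e2, ?_⟩
    intro ρ h1 h2 h3 h4
    exact absurd ⟨ρ, h1, h2, h3, h4⟩ hex

/-- tasks -/
theorem exists_task : ∃ f : ℕ → FS × (ℕ →₀ ℕ), Function.Surjective f :=
  exists_surjective_nat _

noncomputable def task : ℕ → FS × (ℕ →₀ ℕ) := exists_task.choose

theorem task_surj : Function.Surjective task := exists_task.choose_spec

theorem stage_id (V : FS) : Stage V id := by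
  refine ⟨fun B _ h4 => ?_, fun T hT => (mem_P3.mp hT).1⟩
  unfold del rr
  rw [image_id]
  have : (4 : ℤ) ≤ B.card := by exact_mod_cast h4
  linarith

theorem base_stage : Stage (insert 4 ({0, 1, 2, 3} : FS)) (one id 4 {0, 3, 4} {0, 1, 2}) := by
  refine ((stage_id {0, 1, 2, 3}).addOne (y := 4) (s := {0, 3, 4}) (k := {0, 1, 2}) (by decide)
    (by decide) ?_).1
  intro E _ hs h
  rw [id] at h
  subst h
  rw [mem_P3] at hs
  have := hs.1 (show (3 : ℕ) ∈ ({0, 3, 4} : FS) by decide)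
  revert this
  decide

/-- the sequence of stages -/
noncomputable def seq : ℕ → St
  | 0 => ⟨_, _, base_stage⟩
  | n + 1 => (next_exists (seq n) (task (Nat.unpair n).1).1 (task (Nat.unpair n).1).2 n).choose

theorem seq_succ (n : ℕ) : Ext (seq n).V (seq n).χ (seq (n + 1)).V (seq (n + 1)).χ ∧
    n ∈ (seq (n + 1)).V ∧
    Handled (seq n) (seq (n + 1)) (task (Nat.unpair n).1).1 (task (Nat.unpair n).1).2 :=
  (next_exists (seq n) (task (Nat.unpair n).1).1 (task (Nat.unpair n).1).2 n).choose_spec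

theorem seq_ext {n m : ℕ} (h : n ≤ m) : Ext (seq n).V (seq n).χ (seq m).V (seq m).χ := by
  induction m, h using Nat.le_induction with
  | base => exact Ext.refl _ _
  | succ m _ ih => exact ih.trans (seq_succ m).1

theorem mem_seq {x n : ℕ} (h : x < n) : x ∈ (seq n).V :=
  (seq_ext (show x + 1 ≤ n from h)).sub (seq_succ x).2.1

/-- a stage containing a given finite set -/
def lev (T : FS) : ℕ := T.sup id + 1

theorem sub_lev (T : FS) : T ⊆ (seq (lev T)).V := by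
  intro x hx
  apply mem_seq
  have : x ≤ T.sup id := Finset.le_sup (f := id) hx
  unfold lev
  omega

/-- the limit colouring -/
noncomputable def lim (T : FS) : FS := (seq (lev T)).χ T

theorem lim_agr (n : ℕ) : Agr (seq n).χ lim (seq n).V := by
  intro T hT
  unfold lim
  have h1 := (seq_ext (Nat.le_max_left n (lev T))).agr T hT
  have h2 := (seq_ext (Nat.le_max_right n (lev T))).agr T
    (mem_P3.mpr ⟨sub_lev T, (mem_P3.mp hT).2⟩)
  rw [← h1, ← h2]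

/-- strong in the limit -/
def SI (A : FS) : Prop := ∀ B, A ⊆ B → del lim A ≤ del lim B

theorem si_of_str {A : FS} {n : ℕ} (h : Str (seq n).χ A (seq n).V) : SI A := by
  intro B hB
  have h1 := (seq_ext (Nat.le_max_left n (lev B))).strong h
  have h2 : B ⊆ (seq (max n (lev B))).V :=
    (sub_lev B).trans (seq_ext (Nat.le_max_right n (lev B))).sub
  have h3 := h1.2 B hB h2
  rwa [← del_congr (lim_agr _) h1.1, ← del_congr (lim_agr _) h2] at h3

theorem str_of_si {A : FS} {n : ℕ} (h : SI A) (hA : A ⊆ (seq n).V) :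
    Str (seq n).χ A (seq n).V := by
  refine ⟨hA, fun B h1 h2 => ?_⟩
  rw [← del_congr (lim_agr n) hA, ← del_congr (lim_agr n) h2]
  exact h B h1

theorem lim_p4 {B : FS} (h : 4 ≤ B.card) : 4 ≤ del lim B := by
  rw [del_congr (lim_agr (lev B)) (sub_lev B)]
  exact (seq (lev B)).h.p4 B (sub_lev B) h

theorem lim_sep {T T' : FS} (hT : T.card = 3) (hT' : T'.card = 3) (hne : T ≠ T')
    (hc : lim T = lim T') : 5 ≤ (T ∪ T').card := by
  have h1 : T ∈ P3 (seq (lev (T ∪ T'))).V :=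
    mem_P3.mpr ⟨subset_union_left.trans (sub_lev _), hT⟩
  have h2 : T' ∈ P3 (seq (lev (T ∪ T'))).V :=
    mem_P3.mpr ⟨subset_union_right.trans (sub_lev _), hT'⟩
  refine (seq (lev (T ∪ T'))).h.sep h1 h2 hne ?_
  rw [← lim_agr _ T h1, ← lim_agr _ T' h2, hc]

theorem si_four {Q : FS} (h : Q.card = 4) : SI Q :=
  si_of_str ((seq (lev Q)).h.strFour (sub_lev Q) h)

/-- partial isomorphisms between finite strong sets -/
def PI (A : FS) (σ : Equiv.Perm ℕ) : Prop := SI A ∧ SI (mp σ A) ∧ Iso lim σ A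

theorem PI.inv {A : FS} {σ : Equiv.Perm ℕ} (h : PI A σ) : PI (mp σ A) σ⁻¹ := by
  refine ⟨h.2.1, ?_, h.2.2.inv⟩
  rw [mp_inv_mp]
  exact h.1

theorem PI.forth {A : FS} {σ : Equiv.Perm ℕ} (h : PI A σ) (x : ℕ) :
    ∃ (B : FS) (τ : Equiv.Perm ℕ), PI B τ ∧ A ⊆ B ∧ x ∈ B ∧ ∀ a ∈ A, τ a = σ a := by
  classical
  set n₀ := lev (A ∪ mp σ A ∪ {x}) with hn₀
  have hsub : A ∪ mp σ A ∪ {x} ⊆ (seq n₀).V := sub_lev _
  obtain ⟨k, hk⟩ := task_surj (A, Finsupp.indicator A (fun i _ => σ i))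
  set n := Nat.pair k n₀ with hn
  have hle : n₀ ≤ n := Nat.right_le_pair k n₀
  have hsub' := hsub.trans (seq_ext hle).sub
  have hA : A ⊆ (seq n).V := (subset_union_left.trans subset_union_left).trans hsub'
  have hB : mp σ A ⊆ (seq n).V := (subset_union_right.trans subset_union_left).trans hsub'
  have hx : x ∈ (seq n).V := hsub' (by simp)
  obtain ⟨_, _, h3⟩ := seq_succ n
  have hun : (Nat.unpair n).1 = k := by rw [hn]; simp
  rw [hun, hk] at h3
  have hI : Iso (seq n).χ σ A := by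
    intro T hT T' hT'
    rw [← lim_agr n T (P3_mono hA hT), ← lim_agr n T' (P3_mono hA hT'),
      ← lim_agr n _ (P3_mono hB (mp_mem_P3 hT)), ← lim_agr n _ (P3_mono hB (mp_mem_P3 hT'))]
    exact h.2.2 T hT T' hT'
  obtain ⟨τ, g1, g2, g3⟩ := h3 σ (fun a ha => by
    simp only [Finsupp.indicator_of_mem ha]) (str_of_si h.1 hA)
    (str_of_si h.2.1 hB) hI
  refine ⟨(seq n).V, τ, ⟨si_of_str (Str.refl _ _), si_of_str g3, ?_⟩, hA, hx, g1⟩
  exact g2.agr (lim_agr (n + 1)) (seq_succ n).1.sub g3.1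

theorem PI.back {A : FS} {σ : Equiv.Perm ℕ} (h : PI A σ) (x : ℕ) :
    ∃ (B : FS) (τ : Equiv.Perm ℕ), PI B τ ∧ A ⊆ B ∧ x ∈ mp τ B ∧ ∀ a ∈ A, τ a = σ a := by
  obtain ⟨B, ρ, h1, h2, h3, h4⟩ := h.inv.forth x
  have key : ∀ a ∈ A, ρ (σ a) = a := by
    intro a ha
    rw [h4 (σ a) (mem_mp_apply.mpr ha)]
    simp
  refine ⟨mp ρ B, ρ⁻¹, h1.inv, ?_, ?_, ?_⟩
  · intro a ha
    rw [← key a ha]
    exact mem_mp_apply.mpr (h2 (mem_mp_apply.mpr ha))
  · rw [mp_inv_mp]; exact h3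
  · intro a ha
    rw [Equiv.Perm.inv_eq_iff_eq, key a ha]

theorem PI.both {A : FS} {σ : Equiv.Perm ℕ} (h : PI A σ) (x : ℕ) :
    ∃ (B : FS) (τ : Equiv.Perm ℕ), PI B τ ∧ A ⊆ B ∧ x ∈ B ∧ x ∈ mp τ B ∧
      ∀ a ∈ A, τ a = σ a := by
  obtain ⟨B, τ, h1, h2, h3, h4⟩ := h.forth x
  obtain ⟨C, ρ, g1, g2, g3, g4⟩ := h1.back x
  exact ⟨C, ρ, g1, h2.trans g2, g2 h3, g3, fun a ha => by rw [g4 a (h2 ha), h4 a ha]⟩

/-- the sequence of partial isomorphisms -/
noncomputable def ps (A : FS) (σ : Equiv.Perm ℕ) (h : PI A σ) :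
    ℕ → {p : FS × Equiv.Perm ℕ // PI p.1 p.2}
  | 0 => ⟨(A, σ), h⟩
  | n + 1 =>
    let B := ((ps A σ h n).2.both n).choose
    let τ := ((ps A σ h n).2.both n).choose_spec.choose
    ⟨(B, τ), ((ps A σ h n).2.both n).choose_spec.choose_spec.1⟩

theorem ps_succ {A : FS} {σ : Equiv.Perm ℕ} (h : PI A σ) (n : ℕ) :
    (ps A σ h n).1.1 ⊆ (ps A σ h (n + 1)).1.1 ∧ n ∈ (ps A σ h (n + 1)).1.1 ∧
    n ∈ mp (ps A σ h (n + 1)).1.2 (ps A σ h (n + 1)).1.1 ∧
    ∀ a ∈ (ps A σ h n).1.1, (ps A σ h (n + 1)).1.2 a = (ps A σ h n).1.2 a :=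
  ((ps A σ h n).2.both n).choose_spec.choose_spec.2

theorem ps_mono {A : FS} {σ : Equiv.Perm ℕ} (h : PI A σ) {n m : ℕ} (hnm : n ≤ m) :
    (ps A σ h n).1.1 ⊆ (ps A σ h m).1.1 ∧
    ∀ a ∈ (ps A σ h n).1.1, (ps A σ h m).1.2 a = (ps A σ h n).1.2 a := by
  induction m, hnm using Nat.le_induction with
  | base => exact ⟨Subset.rfl, fun _ _ => rfl⟩
  | succ m _ ih =>
    obtain ⟨h1, _, _, h4⟩ := ps_succ h m
    exact ⟨ih.1.trans h1, fun a ha => by rw [h4 a (ih.1 ha), ih.2 a ha]⟩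

/-- every partial isomorphism between finite strong sets extends to an automorphism -/
theorem PI.extend {A : FS} {σ : Equiv.Perm ℕ} (h : PI A σ) :
    ∃ g : Equiv.Perm ℕ, (∀ a ∈ A, g a = σ a) ∧
      ∀ T T' : FS, T.card = 3 → T'.card = 3 →
        (lim T = lim T' ↔ lim (mp g T) = lim (mp g T')) := by
  have hmem : ∀ x, x ∈ (ps A σ h (x + 1)).1.1 := fun x => (ps_succ h x).2.1
  have hval : ∀ x n, x ∈ (ps A σ h n).1.1 →
      (ps A σ h (x + 1)).1.2 x = (ps A σ h n).1.2 x := by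
    intro x n hx
    rw [← (ps_mono h (Nat.le_max_left (x + 1) n)).2 x (hmem x),
      ← (ps_mono h (Nat.le_max_right (x + 1) n)).2 x hx]
  have hbij : Function.Bijective (fun x => (ps A σ h (x + 1)).1.2 x) := by
    constructor
    · intro x y hxy
      simp only at hxy
      have hx : x ∈ (ps A σ h (max (x + 1) (y + 1))).1.1 :=
        (ps_mono h (Nat.le_max_left _ _)).1 (hmem x)
      have hy : y ∈ (ps A σ h (max (x + 1) (y + 1))).1.1 :=
        (ps_mono h (Nat.le_max_right _ _)).1 (hmem y)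
      rw [hval x _ hx, hval y _ hy] at hxy
      exact (ps A σ h (max (x + 1) (y + 1))).1.2.injective hxy
    · intro y
      have h1 := (ps_succ h y).2.2.1
      rw [mem_mp] at h1
      refine ⟨(ps A σ h (y + 1)).1.2⁻¹ y, ?_⟩
      simp only
      rw [hval _ _ h1]
      simp
  set g : Equiv.Perm ℕ := Equiv.ofBijective _ hbij with hg
  have hgx : ∀ x n, x ∈ (ps A σ h n).1.1 → g x = (ps A σ h n).1.2 x := by
    intro x n hx
    rw [hg, Equiv.ofBijective_apply]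
    exact hval x n hx
  refine ⟨g, fun a ha => hgx a 0 ha, ?_⟩
  intro T T' hT hT'
  obtain ⟨n, hn⟩ : ∃ n, T ∪ T' ⊆ (ps A σ h n).1.1 := by
    refine ⟨lev (T ∪ T'), fun x hx => ?_⟩
    have : x ≤ (T ∪ T').sup id := Finset.le_sup (f := id) hx
    exact (ps_mono h (show x + 1 ≤ lev (T ∪ T') by unfold lev; omega)).1 (hmem x)
  have hTn : T ⊆ (ps A σ h n).1.1 := subset_union_left.trans hn
  have hTn' : T' ⊆ (ps A σ h n).1.1 := subset_union_right.trans hn
  rw [mp_congr (fun x hx => hgx x n (hTn hx)), mp_congr (fun x hx => hgx x n (hTn' hx))]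
  exact (ps A σ h n).2.2.2 T (mem_P3.mpr ⟨hTn, hT⟩) T' (mem_P3.mpr ⟨hTn', hT'⟩)

theorem pi_four {A : FS} (σ : Equiv.Perm ℕ) (h : A.card = 4) : PI A σ := by
  refine ⟨si_four h, si_four (by rw [card_mp, h]), ?_⟩
  have key : ∀ Q : FS, Q.card = 4 → ∀ T ∈ P3 Q, ∀ T' ∈ P3 Q, lim T = lim T' → T = T' := by
    intro Q hQ T hT T' hT' hc
    rw [mem_P3] at hT hT'
    by_contra hne
    have h1 := lim_sep hT.2 hT'.2 hne hc
    have h2 := card_le_card (union_subset hT.1 hT'.1)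
    omega
  intro T hT T' hT'
  constructor
  · intro h1
    rw [key A h T hT T' hT' h1]
  · intro h1
    have := key (mp σ A) (by rw [card_mp, h]) _ (mp_mem_P3 hT) _ (mp_mem_P3 hT') h1
    rw [(mp_inj σ).mp this]

theorem lim_base : lim {0, 1, 2} = lim {0, 3, 4} ∧ lim {0, 1, 2} ≠ lim {0, 1, 3} := by
  have h0 := lim_agr 0
  have e1 := h0 {0, 1, 2} (mem_P3.mpr ⟨by decide, by decide⟩)
  have e2 := h0 {0, 3, 4} (mem_P3.mpr ⟨by decide, by decide⟩)
  refine ⟨?_, ?_⟩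
  · rw [e1, e2]
    change one id 4 {0, 3, 4} {0, 1, 2} {0, 1, 2} = one id 4 {0, 3, 4} {0, 1, 2} {0, 3, 4}
    decide
  · intro h
    have := lim_sep (T := {0, 1, 2}) (T' := {0, 1, 3}) (by decide) (by decide) (by decide) h
    revert this
    decide

end H487A
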