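import Pool.Agent.H487A.Limit

set_option autoImplicit false

/-!
# MP_c0ccbe_al: a 4-transitive group on an infinite set with a block of imprimitivity on the
triples that is not a partition of the set
-/

namespace Pool.Agent.Results.MP_c0ccbe_al.SteinerBlocks

open H487A

/-- the set `X^(t)` of `t`-element subsets of `X` -/
abbrev TSub (X : Type) (t : ℕ) : Type := {s : Finset X // s.card = t}

/-- the action of a permutation on the `t`-element subsets -/
def act {X : Type} {t : ℕ} (g : Equiv.Perm X) (s : TSub X t) : TSub X t :=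
  ⟨s.1.map g.toEmbedding, by rw [Finset.card_map]; exact s.2⟩

/-- `G` is transitive on the ordered `k`-tuples of distinct points -/
def KTransitive {X : Type} (G : Subgroup (Equiv.Perm X)) (k : ℕ) : Prop :=
  ∀ u v : Fin k → X, Function.Injective u → Function.Injective v →
    ∃ g ∈ G, ∀ i, g (u i) = v i

/-- `G` is `t`-set primitive: its action on the `t`-element subsets is transitive and preserves
no equivalence relation (partition) except the two trivial ones -/
def TSetPrimitive {X : Type} (G : Subgroup (Equiv.Perm X)) (t : ℕ) : Prop :=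
  (∀ s s' : TSub X t, ∃ g ∈ G, act g s = s') ∧
  ∀ r : Setoid (TSub X t), (∀ g ∈ G, ∀ s s' : TSub X t, r s s' → r (act g s) (act g s')) →
    r = ⊥ ∨ r = ⊤

/-- `S` is a block of imprimitivity of `G` on the `t`-element subsets -/
def ImprimitivityBlock {X : Type} (G : Subgroup (Equiv.Perm X)) {t : ℕ}
    (S : Set (TSub X t)) : Prop :=
  S.Nontrivial ∧ S ≠ Set.univ ∧ ∀ g ∈ G, act g '' S = S ∨ Disjoint (act g '' S) S

/-- `S` is a partition of `X`: every point lies in exactly one member of `S` -/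
def IsPartitionOf {X : Type} {t : ℕ} (S : Set (TSub X t)) : Prop :=
  ∀ x : X, ∃! s : TSub X t, s ∈ S ∧ x ∈ s.1

/-- `S` is a Steiner system `S(2,t,·)`: any two points lie in exactly one member of `S` -/
def IsSteinerTwo {X : Type} {t : ℕ} (S : Set (TSub X t)) : Prop :=
  ∀ x y : X, x ≠ y → ∃! s : TSub X t, s ∈ S ∧ x ∈ s.1 ∧ y ∈ s.1

/-- the group -/
noncomputable def G : Subgroup (Equiv.Perm ℕ) where
  carrier := {g | ∀ T T' : Finset ℕ, T.card = 3 → T'.card = 3 →
    (lim T = lim T' ↔ lim (mp g T) = lim (mp g T'))}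
  mul_mem' := by
    intro a b ha hb T T' hT hT'
    rw [mp_mul, mp_mul, hb T T' hT hT']
    exact ha _ _ (by rw [card_mp, hT]) (by rw [card_mp, hT'])
  one_mem' := by
    intro T T' _ _
    have : ∀ U : Finset ℕ, mp 1 U = U := by intro U; ext x; simp [mem_mp]
    rw [this, this]
  inv_mem' := by
    intro a ha T T' hT hT'
    have := ha (mp a⁻¹ T) (mp a⁻¹ T') (by rw [card_mp, hT]) (by rw [card_mp, hT'])
    rw [mp_mp_inv, mp_mp_inv] at this
    exact this.symm

theorem mem_G {g : Equiv.Perm ℕ} : g ∈ G ↔ ∀ T T' : Finset ℕ, T.card = 3 → T'.card = 3 →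
    (lim T = lim T' ↔ lim (mp g T) = lim (mp g T')) := Iff.rfl

theorem four_transitive : KTransitive G 4 := by
  intro u v hu hv
  obtain ⟨σ, hσ⟩ : ∃ σ : Equiv.Perm ℕ, ∀ i, σ (u i) = v i := by
    have h := (Equiv.Perm.isMultiplyPretransitive ℕ 4).exists_smul_eq ⟨u, hu⟩ ⟨v, hv⟩
    obtain ⟨σ, h⟩ := h
    refine ⟨σ, fun i => ?_⟩
    have := DFunLike.congr_fun h i
    simpa using this
  have hcard : (Finset.univ.image u).card = 4 := by
    rw [Finset.card_image_of_injective _ hu]; simp
  obtain ⟨g, h1, h2⟩ := (pi_four σ hcard).extend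
  refine ⟨g, mem_G.mpr h2, fun i => ?_⟩
  rw [h1 (u i) (Finset.mem_image_of_mem _ (Finset.mem_univ i)), hσ i]

/-- the block: the triples with the colour of `{0, 1, 2}` -/
def S : Set (TSub ℕ 3) := {s | lim s.1 = lim {0, 1, 2}}

theorem block : ImprimitivityBlock G S := by
  refine ⟨?_, ?_, ?_⟩
  · refine ⟨⟨{0, 1, 2}, by decide⟩, rfl, ⟨{0, 3, 4}, by decide⟩, lim_base.1.symm, ?_⟩
    intro h
    have := congrArg Subtype.val h
    revert this
    decide
  · intro h
    have : (⟨{0, 1, 3}, by decide⟩ : TSub ℕ 3) ∈ S := by rw [h]; trivial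
    exact lim_base.2 this.symm
  · intro g hg
    rw [mem_G] at hg
    by_cases h : lim (mp g {0, 1, 2}) = lim {0, 1, 2}
    · left
      ext s
      constructor
      · rintro ⟨s', hs', rfl⟩
        change lim (mp g s'.1) = _
        rw [← h]
        exact (hg s'.1 {0, 1, 2} s'.2 (by decide)).mp hs'
      · intro hs
        refine ⟨⟨mp g⁻¹ s.1, by rw [card_mp]; exact s.2⟩, ?_, ?_⟩
        · change lim (mp g⁻¹ s.1) = _
          rw [hg _ _ (by rw [card_mp]; exact s.2) (by decide), mp_mp_inv, h]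
          exact hs
        · apply Subtype.ext
          exact mp_mp_inv g s.1
    · right
      rw [Set.disjoint_left]
      rintro s ⟨s', hs', rfl⟩ hs
      apply h
      have h1 := (hg s'.1 {0, 1, 2} s'.2 (by decide)).mp hs'
      rw [← h1]
      exact hs

theorem not_partition : ¬ IsPartitionOf S := by
  intro h
  obtain ⟨s, _, hs⟩ := h 0
  have h1 := hs ⟨{0, 1, 2}, by decide⟩ ⟨rfl, by decide⟩
  have h2 := hs ⟨{0, 3, 4}, by decide⟩ ⟨lim_base.1.symm, by decide⟩
  have h3 := congrArg Subtype.val (h1.trans h2.symm)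
  revert h3
  decide

theorem not_primitive : ¬ TSetPrimitive G 3 := by
  rintro ⟨_, h⟩
  have key := h ⟨fun s s' => lim s.1 = lim s'.1, fun _ => rfl, fun h => h.symm,
    fun h h' => h.trans h'⟩ (by
      intro g hg s s' hs
      exact ((mem_G.mp hg) s.1 s'.1 s.2 s'.2).mp hs)
  rcases key with h1 | h1
  · have : (⟨fun s s' => lim s.1 = lim s'.1, fun _ => rfl, fun h => h.symm,
        fun h h' => h.trans h'⟩ : Setoid (TSub ℕ 3)) ⟨{0, 1, 2}, by decide⟩
        ⟨{0, 3, 4}, by decide⟩ := lim_base.1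
    rw [h1] at this
    have h2 := congrArg Subtype.val (Setoid.bot_def ▸ this :
      (⟨{0, 1, 2}, by decide⟩ : TSub ℕ 3) = ⟨{0, 3, 4}, by decide⟩)
    revert h2
    decide
  · have : (⊤ : Setoid (TSub ℕ 3)) ⟨{0, 1, 2}, by decide⟩ ⟨{0, 1, 3}, by decide⟩ := trivial
    rw [← h1] at this
    exact lim_base.2 this

/-- a triple of `S` through a point can be moved -/
theorem move {a b c d : ℕ} (hab : a ≠ b) (hac : a ≠ c) (hbc : b ≠ c) (hda : d ≠ a) (hdb : d ≠ b)
    (hdc : d ≠ c) : ∃ x, x ≠ a ∧ x ≠ d ∧ lim {a, d, x} = lim {a, b, c} := by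
  obtain ⟨g, hg, h⟩ := four_transitive ![0, 1, 2, 3] ![a, b, c, d] (by decide) (by
    intro i j hij
    fin_cases i <;> fin_cases j <;> simp_all)
  rw [mem_G] at hg
  have g0 : g 0 = a := h 0
  have g1 : g 1 = b := h 1
  have g2 : g 2 = c := h 2
  have g3 : g 3 = d := h 3
  refine ⟨g 4, ?_, ?_, ?_⟩
  · rw [← g0]; intro h; exact absurd (g.injective h) (by decide)
  · rw [← g3]; intro h; exact absurd (g.injective h) (by decide)
  · have h1 := (hg {0, 1, 2} {0, 3, 4} (by decide) (by decide)).mp lim_base.1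
    rw [mp_insert, mp_insert, mp_insert, mp_insert, g0, g1, g3] at h1
    have e1 : mp g {2} = {c} := by unfold mp; rw [Finset.map_singleton]; simp [g2]
    have e2 : mp g {4} = {g 4} := by unfold mp; rw [Finset.map_singleton]; simp
    rw [e1, e2] at h1
    exact h1.symm

theorem steiner : IsSteinerTwo S := by
  intro x y hxy
  -- a triple of `S` containing `x`
  have hx : ∃ p q, x ≠ p ∧ x ≠ q ∧ p ≠ q ∧ lim {x, p, q} = lim {0, 1, 2} := by
    by_cases h0 : x = 0
    · exact ⟨1, 2, by omega, by omega, by decide, by rw [h0]⟩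
    by_cases h1 : x = 1
    · refine ⟨0, 2, by omega, by omega, by decide, ?_⟩
      rw [h1, Finset.insert_comm]
    by_cases h2 : x = 2
    · refine ⟨0, 1, by omega, by omega, by decide, ?_⟩
      rw [h2, Finset.insert_comm, Finset.pair_comm]
    obtain ⟨z, hz1, hz2, hz3⟩ := move (a := 0) (b := 1) (c := 2) (d := x) (by decide) (by decide)
      (by decide) h0 h1 h2
    refine ⟨0, z, h0, hz2.symm, hz1.symm, ?_⟩
    rw [Finset.insert_comm, hz3]
  obtain ⟨p, q, hp, hq, hpq, hc⟩ := hx
  have hex : ∃ z, z ≠ x ∧ z ≠ y ∧ lim {x, y, z} = lim {0, 1, 2} := by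
    by_cases h1 : y = p
    · exact ⟨q, hq.symm, by rw [h1]; exact hpq.symm, by rw [h1, hc]⟩
    by_cases h2 : y = q
    · exact ⟨p, hp.symm, by rw [h2]; exact hpq, by rw [h2, Finset.pair_comm, hc]⟩
    obtain ⟨z, hz1, hz2, hz3⟩ := move (a := x) (b := p) (c := q) (d := y) hp hq hpq hxy.symm h1 h2
    exact ⟨z, hz1, hz2, by rw [hz3, hc]⟩
  obtain ⟨z, hz1, hz2, hz3⟩ := hex
  have hcard : ({x, y, z} : Finset ℕ).card = 3 := by
    rw [Finset.card_insert_of_notMem, Finset.card_pair hz2.symm]
    simp only [Finset.mem_insert, Finset.mem_singleton, not_or]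
    exact ⟨hxy, hz1.symm⟩
  refine ⟨⟨{x, y, z}, hcard⟩, ⟨hz3, by simp, by simp⟩, ?_⟩
  rintro s ⟨hs1, hs2, hs3⟩
  by_contra hne
  have hne' : s.1 ≠ {x, y, z} := fun h => hne (Subtype.ext h)
  have h5 := lim_sep s.2 hcard hne' (hs1.trans hz3.symm)
  have h6 : s.1 ∪ {x, y, z} = insert z s.1 := by
    ext w
    simp only [Finset.mem_union, Finset.mem_insert, Finset.mem_singleton]
    constructor
    · rintro (h | rfl | rfl | rfl)
      · right; exact h
      · right; exact hs2
      · right; exact hs3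
      · left; rfl
    · rintro (rfl | h)
      · right; right; right; rfl
      · left; exact h
  rw [h6] at h5
  have h7 := Finset.card_insert_le z s.1
  have h8 := s.2
  omega

/-- Negative answer to Q1 of MP_c0ccbe_al: there is a 4-transitive group `G` of permutations of the
infinite set `ℕ` which is not 3-set primitive, and a block of imprimitivity `S` of `G` on the
3-element subsets which is not a partition of `ℕ`; indeed `S` is a Steiner triple system. -/
theorem result : ∃ (G : Subgroup (Equiv.Perm ℕ)) (S : Set (TSub ℕ 3)),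
    KTransitive G (3 + 1) ∧ ¬ TSetPrimitive G 3 ∧ ImprimitivityBlock G S ∧
      ¬ IsPartitionOf S ∧ IsSteinerTwo S :=
  ⟨G, S, four_transitive, not_primitive, block, not_partition, steiner⟩

end Pool.Agent.Results.MP_c0ccbe_al.SteinerBlocks
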