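import Pool.Agent.H487A.Base

set_option autoImplicit false

/-!
# One-point steps
-/

namespace H487A

open Finset

/-- `V'` is a strong extension of `V` -/
structure Ext (V : FS) (χ : FS → FS) (V' : FS) (χ' : FS → FS) : Prop where
  sub : V ⊆ V'
  agr : Agr χ χ' V
  str : Str χ' V V'

theorem Ext.refl (V : FS) (χ : FS → FS) : Ext V χ V χ :=
  ⟨Subset.rfl, fun _ _ => rfl, Str.refl _ _⟩

theorem Ext.strong {V V' A : FS} {χ χ' : FS → FS} (h : Ext V χ V' χ') (hA : Str χ A V) :
    Str χ' A V' := (hA.congr h.agr).trans h.str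

theorem Ext.trans {V V' V'' : FS} {χ χ' χ'' : FS → FS} (h : Ext V χ V' χ')
    (h' : Ext V' χ' V'' χ'') : Ext V χ V'' χ'' :=
  ⟨h.sub.trans h'.sub, fun T hT => by rw [h'.agr T (P3_mono h.sub hT), h.agr T hT],
    h'.strong h.str⟩

/-- inserting triples whose colours are themselves and are new does not change the excess -/
theorem rr_fresh (χ : FS → FS) (S M : Finset FS) (h1 : ∀ T ∈ M, χ T = T)
    (h2 : ∀ T ∈ M, ∀ T' ∈ S, χ T' ≠ T) : rr χ (S ∪ M) ≤ rr χ S := by
  unfold rr
  have h3 : (S ∪ M).card ≤ S.card + M.card := card_union_le _ _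
  have h4 : (S.image χ).card + M.card = (S.image χ ∪ M).card := by
    rw [card_union_of_disjoint]
    rw [disjoint_left]
    intro T hT hT'
    rw [mem_image] at hT
    obtain ⟨T', hT1, hT2⟩ := hT
    exact h2 T hT' T' hT1 hT2
  have h5 : S.image χ ∪ M ⊆ (S ∪ M).image χ := by
    rw [image_union]
    apply union_subset_union_right
    intro T hT
    exact mem_image.mpr ⟨T, hT, h1 T hT⟩
  have h6 := card_le_card h5
  omega

/-- colouring with one new point `y`: one triple `s` gets the colour `k` -/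
def one (χ : FS → FS) (y : ℕ) (s k : FS) (T : FS) : FS :=
  if y ∈ T then (if T = s then k else T) else χ T

theorem one_agr (χ : FS → FS) {V : FS} {y : ℕ} (s k : FS) (hy : y ∉ V) :
    Agr χ (one χ y s k) V := by
  intro T hT
  rw [mem_P3] at hT
  unfold one
  rw [if_neg (fun h => hy (hT.1 h))]

theorem rr_one {χ : FS → FS} {V : FS} {y : ℕ} {s k : FS} (hcs : ∀ T ∈ P3 V, χ T ⊆ V)
    (hy : y ∉ V) (hk : k ⊆ V) {E : FS} (hE : E ⊆ insert y V) :
    rr (one χ y s k) (P3 E) ≤ rr χ (P3 (E.erase y)) +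
      (if s ∈ P3 E ∧ k ∈ (P3 (E.erase y)).image χ then 1 else 0) := by
  classical
  have hE0 : E.erase y ⊆ V := by
    intro x hx
    rw [mem_erase] at hx
    have := hE hx.2
    rw [mem_insert] at this
    tauto
  have hagr := one_agr χ s k hy
  set χ' := one χ y s k with hχ'
  have e0 : rr χ' (P3 (E.erase y)) = rr χ (P3 (E.erase y)) :=
    rr_congr (fun T hT => hagr T (P3_mono hE0 hT))
  have i0 : (P3 (E.erase y)).image χ' = (P3 (E.erase y)).image χ :=
    image_congr (fun T hT => hagr T (P3_mono hE0 hT))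
  -- the new triples other than `s`
  set M := (P3 E).filter (fun T => y ∈ T ∧ T ≠ s) with hM
  have m1 : ∀ T ∈ M, χ' T = T := by
    intro T hT
    rw [hM, mem_filter] at hT
    rw [hχ']
    unfold one
    rw [if_pos hT.2.1, if_neg hT.2.2]
  have m2 : ∀ T ∈ M, ∀ T' ∈ P3 (E.erase y), χ' T' ≠ T := by
    intro T hT T' hT' h
    rw [hagr T' (P3_mono hE0 hT')] at h
    rw [hM, mem_filter] at hT
    have := hcs T' (P3_mono hE0 hT')
    rw [h] at this
    exact hy (this hT.2.1)
  by_cases hs : s ∈ P3 E ∧ y ∈ s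
  · have hsub : P3 E ⊆ (insert s (P3 (E.erase y))) ∪ M := by
      intro T hT
      rw [mem_union, mem_insert, hM, mem_filter]
      by_cases h1 : y ∈ T
      · by_cases h2 : T = s
        · left; left; exact h2
        · right; exact ⟨hT, h1, h2⟩
      · left; right
        rw [mem_P3] at hT ⊢
        exact ⟨fun x hx => mem_erase.mpr ⟨fun h => h1 (h ▸ hx), hT.1 hx⟩, hT.2⟩
    have hks : χ' s = k := by
      rw [hχ']; unfold one; rw [if_pos hs.2, if_pos rfl]
    have m3 : ∀ T ∈ M, ∀ T' ∈ insert s (P3 (E.erase y)), χ' T' ≠ T := by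
      intro T hT T' hT'
      rw [mem_insert] at hT'
      rcases hT' with rfl | hT'
      · rw [hks]
        intro h
        rw [hM, mem_filter] at hT
        exact hy (hk (h ▸ hT.2.1))
      · exact m2 T hT T' hT'
    have h1 := (rr_mono χ' hsub).trans (rr_fresh χ' _ M m1 m3)
    have hs0 : s ∉ P3 (E.erase y) := by
      intro h
      rw [mem_P3] at h
      exact (mem_erase.mp (h.1 hs.2)).1 rfl
    by_cases hk2 : k ∈ (P3 (E.erase y)).image χ
    · rw [if_pos ⟨hs.1, hk2⟩]
      rw [rr_insert_mem χ' _ s hs0 (by rw [i0, hks]; exact hk2), e0] at h1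
      exact h1
    · rw [if_neg (fun h => hk2 h.2), add_zero]
      refine h1.trans ?_
      rw [← e0]
      unfold rr
      rw [card_insert_of_notMem hs0, image_insert, hks, card_insert_of_notMem (by rw [i0]; exact hk2)]
      push_cast
      linarith
  · have hsub : P3 E ⊆ (P3 (E.erase y)) ∪ M := by
      intro T hT
      rw [mem_union, hM, mem_filter]
      by_cases h1 : y ∈ T
      · right
        exact ⟨hT, h1, fun h => hs ⟨h ▸ hT, h ▸ h1⟩⟩
      · left
        rw [mem_P3] at hT ⊢
        exact ⟨fun x hx => mem_erase.mpr ⟨fun h => h1 (h ▸ hx), hT.1 hx⟩, hT.2⟩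
    have h1 := (rr_mono χ' hsub).trans (rr_fresh χ' _ M m1 m2)
    rw [e0] at h1
    split_ifs <;> linarith

/-- adding one point -/
theorem Stage.addOne {χ : FS → FS} {V : FS} (h : Stage V χ) {y : ℕ} {s k : FS}
    (hy : y ∉ V) (hk : k ⊆ V)
    (H : ∀ E ∈ P3 V, s ∈ P3 (insert y E) → χ E ≠ k) :
    Stage (insert y V) (one χ y s k) ∧ Ext V χ (insert y V) (one χ y s k) := by
  have hagr := one_agr χ s k hy
  refine ⟨⟨?_, ?_⟩, ⟨subset_insert _ _, hagr, subset_insert _ _, ?_⟩⟩
  · intro B hB h4
    by_cases hyB : y ∈ B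
    · have h1 := rr_one h.cs hy hk hB (s := s)
      have hB0 : B.erase y ⊆ V := by
        intro x hx
        rw [mem_erase] at hx
        have := hB hx.2
        rw [mem_insert] at this
        tauto
      have hcard : (B.erase y).card + 1 = B.card := card_erase_add_one hyB
      unfold del
      by_cases h5 : 4 ≤ (B.erase y).card
      · have h6 := h.p4 _ hB0 h5
        unfold del at h6
        have h7 : rr (one χ y s k) (P3 B) ≤ rr χ (P3 (B.erase y)) + 1 := by
          split_ifs at h1 <;> linarith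
        have : (B.card : ℤ) = (B.erase y).card + 1 := by exact_mod_cast hcard.symm
        linarith
      · have h6 : (B.erase y).card = 3 := by omega
        have h7 : ¬ (s ∈ P3 B ∧ k ∈ (P3 (B.erase y)).image χ) := by
          rintro ⟨h8, h9⟩
          rw [mem_image] at h9
          obtain ⟨E, hE1, hE2⟩ := h9
          have h10 : E = B.erase y := by
            rw [mem_P3] at hE1
            exact eq_of_subset_of_card_le hE1.1 (by omega)
          apply H E (P3_mono hB0 hE1) _ hE2
          rw [h10, insert_erase hyB]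
          exact h8
        rw [if_neg h7, add_zero] at h1
        have h8 := del_small χ (B := B.erase y) (by omega)
        unfold del at h8
        have h9 := rr_nonneg χ (P3 (B.erase y))
        have : (B.card : ℤ) = (B.erase y).card + 1 := by exact_mod_cast hcard.symm
        rw [h6] at h8 this
        push_cast at h8 this
        linarith
    · have hBV : B ⊆ V := by
        intro x hx
        have := hB hx
        rw [mem_insert] at this
        rcases this with rfl | h1
        · exact absurd hx hyB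
        · exact h1
      rw [del_congr hagr hBV]
      exact h.p4 B hBV h4
  · intro T hT
    unfold one
    split_ifs with h1 h2
    · exact hk.trans (subset_insert _ _)
    · exact (mem_P3.mp hT).1
    · refine (h.cs T ?_).trans (subset_insert _ _)
      rw [mem_P3] at hT ⊢
      refine ⟨fun x hx => ?_, hT.2⟩
      have := hT.1 hx
      rw [mem_insert] at this
      rcases this with rfl | h3
      · exact absurd hx h1
      · exact h3
  · intro B hB1 hB2
    by_cases hyB : y ∈ B
    · have hB : B = insert y V := Subset.antisymm hB2 (insert_subset hyB hB1)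
      have h1 := rr_one h.cs hy hk hB2 (s := s)
      have h2 : B.erase y = V := by rw [hB]; exact erase_insert hy
      rw [h2] at h1
      rw [del_congr hagr Subset.rfl]
      unfold del
      have h3 : (B.card : ℤ) = V.card + 1 := by
        rw [hB, card_insert_of_notMem hy]; push_cast; ring
      split_ifs at h1 <;> linarith
    · have hB : B = V := by
        apply Subset.antisymm _ hB1
        intro x hx
        have := hB2 hx
        rw [mem_insert] at this
        rcases this with rfl | h3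
        · exact absurd hx hyB
        · exact h3
      rw [hB]

/-- over a strong set, a point with a relation has only one -/
theorem unique_new {χ : FS → FS} {A V : FS} (hs : Str χ A V) {w : ℕ} (hw : w ∈ V)
    (hwA : w ∉ A) {S T : FS} (hS : S ∈ P3 (insert w A)) (hwS : w ∈ S) (hT : T ∈ P3 A)
    (hc : χ S = χ T) :
    ∀ N ∈ P3 (insert w A), w ∈ N → N ≠ S → ∀ N' ∈ P3 (insert w A), χ N' = χ N → N' = N := by
  intro N hN hwN hNS N' hN' hNN
  by_contra hne
  have hnot : ∀ X : FS, w ∈ X → X ∉ P3 A := fun X hX h => hwA ((mem_P3.mp h).1 hX)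
  have h1 := hs.2 (insert w A) (subset_insert _ _) (insert_subset hw hs.1)
  unfold del at h1
  rw [card_insert_of_notMem hwA] at h1
  push_cast at h1
  have hAs : P3 A ⊆ P3 (insert w A) := P3_mono (subset_insert _ _)
  have r1 : rr χ (insert S (P3 A)) = rr χ (P3 A) + 1 :=
    rr_insert_mem χ _ S (hnot S hwS) (by rw [hc]; exact mem_image_of_mem _ hT)
  have hN1 : N ∉ insert S (P3 A) := by
    rw [mem_insert]; rintro (h | h)
    · exact hNS h
    · exact hnot N hwN h
  by_cases hcN : χ N ∈ (insert S (P3 A)).image χ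
  · have r2 := rr_insert_mem χ _ N hN1 hcN
    have r3 : rr χ (insert N (insert S (P3 A))) ≤ rr χ (P3 (insert w A)) :=
      rr_mono χ (insert_subset hN (insert_subset hS hAs))
    linarith
  · have hN'1 : N' ∉ insert N (insert S (P3 A)) := by
      rw [mem_insert]
      rintro (h | h)
      · exact hne h
      · exact hcN (by rw [← hNN]; exact mem_image_of_mem _ h)
    have r2 := rr_insert_le χ (insert S (P3 A)) N
    have r3 := rr_insert_mem χ _ N' hN'1 (by rw [hNN]; exact mem_image_of_mem _ (mem_insert_self _ _))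
    have r4 : rr χ (insert N' (insert N (insert S (P3 A)))) ≤ rr χ (P3 (insert w A)) :=
      rr_mono χ (insert_subset hN' (insert_subset hN (insert_subset hS hAs)))
    linarith

theorem str_insert {χ : FS → FS} {A V : FS} (hs : Str χ A V) {w : ℕ} (hw : w ∈ V)
    (hwA : w ∉ A) {S T : FS} (hS : S ∈ P3 (insert w A)) (hwS : w ∈ S) (hT : T ∈ P3 A)
    (hc : χ S = χ T) : Str χ (insert w A) V := by
  refine ⟨insert_subset hw hs.1, fun B h1 h2 => ?_⟩
  have h3 := hs.2 B ((subset_insert _ _).trans h1) h2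
  refine le_trans ?_ h3
  have r1 : rr χ (insert S (P3 A)) = rr χ (P3 A) + 1 :=
    rr_insert_mem χ _ S (fun h => hwA ((mem_P3.mp h).1 hwS))
      (by rw [hc]; exact mem_image_of_mem _ hT)
  have r2 : rr χ (insert S (P3 A)) ≤ rr χ (P3 (insert w A)) :=
    rr_mono χ (insert_subset hS (P3_mono (subset_insert _ _)))
  unfold del
  rw [card_insert_of_notMem hwA]
  push_cast
  linarith

theorem iso_insert {χ : FS → FS} {A V : FS} {σ τ : Equiv.Perm ℕ} (hA : Str χ A V)
    (hB : Str χ (mp σ A) V) (hI : Iso χ σ A) (hτ : ∀ a ∈ A, τ a = σ a)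
    {w : ℕ} (hw : w ∈ V) (hwA : w ∉ A) (hy : τ w ∈ V) (hyB : τ w ∉ mp σ A)
    {S T : FS} (hS : S ∈ P3 (insert w A)) (hwS : w ∈ S) (hT : T ∈ P3 A)
    (hc : χ S = χ T) (hc' : χ (mp τ S) = χ (mp σ T)) : Iso χ τ (insert w A) := by
  have hmp : mp τ (insert w A) = insert (τ w) (mp σ A) := by
    rw [mp_insert, mp_congr hτ]
  have u1 := unique_new hA hw hwA hS hwS hT hc
  have u2 := unique_new hB hy hyB (by rw [← hmp]; exact mp_mem_P3 hS) (mem_mp_apply.mpr hwS)
    (mp_mem_P3 hT) hc'
  rw [← hmp] at u2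
  have key : ∀ X ∈ P3 (insert w A), w ∈ X → X ≠ S → ∀ Y ∈ P3 (insert w A),
      (χ Y = χ X ↔ χ (mp τ Y) = χ (mp τ X)) := by
    intro X hX hwX hXS Y hY
    constructor
    · intro h
      rw [u1 X hX hwX hXS Y hY h]
    · intro h
      have := u2 (mp τ X) (mp_mem_P3 hX) (mem_mp_apply.mpr hwX)
        (fun h => hXS ((mp_inj τ).mp h)) (mp τ Y) (mp_mem_P3 hY) h
      rw [(mp_inj τ).mp this]
  have red : ∀ X ∈ P3 (insert w A), (w ∉ X ∨ X = S) →
      ∃ Y ∈ P3 A, χ Y = χ X ∧ χ (mp σ Y) = χ (mp τ X) := by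
    intro X hX h
    rcases h with h | rfl
    · have hXA : X ⊆ A := by
        intro x hx
        have := (mem_P3.mp hX).1 hx
        rw [mem_insert] at this
        rcases this with rfl | h3
        · exact absurd hx h
        · exact h3
      exact ⟨X, mem_P3.mpr ⟨hXA, (mem_P3.mp hX).2⟩, rfl,
        by rw [mp_congr (fun x hx => hτ x (hXA hx))]⟩
    · exact ⟨T, hT, hc.symm, hc'.symm⟩
  intro X hX Y hY
  by_cases h1 : w ∈ X ∧ X ≠ S
  · have := key X hX h1.1 h1.2 Y hY
    rw [eq_comm, this, eq_comm]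
  · by_cases h2 : w ∈ Y ∧ Y ≠ S
    · exact key Y hY h2.1 h2.2 X hX
    · obtain ⟨X', hX', e1, e2⟩ := red X hX (by tauto)
      obtain ⟨Y', hY', e3, e4⟩ := red Y hY (by tauto)
      rw [← e1, ← e3, ← e2, ← e4]
      exact hI X' hX' Y' hY'

/-- one point of the domain, image already present -/
theorem step1a {χ : FS → FS} {A V : FS} {σ : Equiv.Perm ℕ} (hV : Stage V χ) (hA : Str χ A V)
    (hB : Str χ (mp σ A) V) (hI : Iso χ σ A) {w : ℕ} (hw : w ∈ V) (hwA : w ∉ A)
    {S T : FS} (hS : S ∈ P3 (insert w A)) (hwS : w ∈ S) (hT : T ∈ P3 A)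
    (hc : χ S = χ T) {y : ℕ} (hy : y ∈ V) (hyQ : y ∉ mp σ (S.erase w))
    (hc' : χ (insert y (mp σ (S.erase w))) = χ (mp σ T)) :
    ∃ τ : Equiv.Perm ℕ, (∀ a ∈ A, τ a = σ a) ∧ Iso χ τ (insert w A) ∧ Str χ (insert w A) V ∧
      Str χ (mp τ (insert w A)) V := by
  have hSe : S.erase w ⊆ A := by
    intro x hx
    rw [mem_erase] at hx
    have := (mem_P3.mp hS).1 hx.2
    rw [mem_insert] at this
    tauto
  have hSc : (S.erase w).card = 2 := by
    rw [card_erase_of_mem hwS, (mem_P3.mp hS).2]
  have hSV : S ∈ P3 V := P3_mono (insert_subset hw hA.1) hS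
  have hyB : y ∉ mp σ A := by
    intro h
    rw [mem_mp] at h
    set z := σ⁻¹ y with hz
    have hyz : y = σ z := by rw [hz]; simp
    have hzP : z ∉ S.erase w := by
      intro h1
      apply hyQ
      rw [hyz]
      exact mem_mp_apply.mpr h1
    have hZ : insert z (S.erase w) ∈ P3 A := by
      rw [mem_P3]
      exact ⟨insert_subset h hSe, by rw [card_insert_of_notMem hzP, hSc]⟩
    have h1 : χ (insert z (S.erase w)) = χ T := by
      rw [hI _ hZ _ hT, mp_insert, ← hyz]
      exact hc'
    have hne : insert z (S.erase w) ≠ S := by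
      intro h2
      exact hwA ((mem_P3.mp hZ).1 (by rw [h2]; exact hwS))
    have h2 := hV.sep (P3_mono hA.1 hZ) hSV hne (by rw [h1, hc])
    have h3 : insert z (S.erase w) ∪ S ⊆ insert z S := by
      apply union_subset _ (subset_insert _ _)
      exact insert_subset_insert _ (erase_subset _ _)
    have h4 := card_le_card h3
    have h5 := card_insert_le z S
    rw [(mem_P3.mp hS).2] at h5
    omega
  set τ : Equiv.Perm ℕ := Equiv.swap (σ w) y * σ with hτdef
  have hτw : τ w = y := by rw [hτdef]; simp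
  have hτ : ∀ a ∈ A, τ a = σ a := by
    intro a ha
    rw [hτdef, Equiv.Perm.mul_apply]
    apply Equiv.swap_apply_of_ne_of_ne
    · intro h
      exact hwA (σ.injective h ▸ ha)
    · intro h
      exact hyB (h ▸ mem_mp_apply.mpr ha)
  have hmp : mp τ (insert w A) = insert y (mp σ A) := by
    rw [mp_insert, mp_congr hτ, hτw]
  have hmS : mp τ S = insert y (mp σ (S.erase w)) := by
    conv_lhs => rw [← insert_erase hwS]
    rw [mp_insert, mp_congr (fun x hx => hτ x (hSe hx)), hτw]
  refine ⟨τ, hτ, ?_, str_insert hA hw hwA hS hwS hT hc, ?_⟩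
  · exact iso_insert hA hB hI hτ hw hwA (by rw [hτw]; exact hy) (by rw [hτw]; exact hyB)
      hS hwS hT hc (by rw [hmS]; exact hc')
  · rw [hmp]
    refine str_insert hB hy hyB (S := mp τ S) (T := mp σ T) ?_ ?_ (mp_mem_P3 hT) ?_
    · rw [← hmp]; exact mp_mem_P3 hS
    · rw [← hτw]; exact mem_mp_apply.mpr hwS
    · rw [hmS]; exact hc'

/-- one point of the domain -/
theorem step1 {χ : FS → FS} {A V : FS} {σ : Equiv.Perm ℕ} (hV : Stage V χ) (hA : Str χ A V)
    (hB : Str χ (mp σ A) V) (hI : Iso χ σ A) {w : ℕ} (hw : w ∈ V) (hwA : w ∉ A)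
    {S T : FS} (hS : S ∈ P3 (insert w A)) (hwS : w ∈ S) (hT : T ∈ P3 A)
    (hc : χ S = χ T) :
    ∃ (V' : FS) (χ' : FS → FS) (τ : Equiv.Perm ℕ), Stage V' χ' ∧ Ext V χ V' χ' ∧
      (∀ a ∈ A, τ a = σ a) ∧ Iso χ' τ (insert w A) ∧ Str χ' (insert w A) V' ∧
      Str χ' (mp τ (insert w A)) V' := by
  classical
  by_cases hex : ∃ y ∈ V, y ∉ mp σ (S.erase w) ∧
      χ (insert y (mp σ (S.erase w))) = χ (mp σ T)
  · obtain ⟨y, hy, hyQ, hc'⟩ := hex
    obtain ⟨τ, h1, h2, h3, h4⟩ := step1a hV hA hB hI hw hwA hS hwS hT hc hy hyQ hc'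
    exact ⟨V, χ, τ, hV, Ext.refl _ _, h1, h2, h3, h4⟩
  · push Not at hex
    obtain ⟨y, hy⟩ := Infinite.exists_notMem_finset V
    have hSe : S.erase w ⊆ A := by
      intro x hx
      rw [mem_erase] at hx
      have := (mem_P3.mp hS).1 hx.2
      rw [mem_insert] at this
      tauto
    have hSc : (S.erase w).card = 2 := by
      rw [card_erase_of_mem hwS, (mem_P3.mp hS).2]
    have hQV : mp σ (S.erase w) ⊆ V := ((mp_subset σ).mpr hSe).trans hB.1
    have hyQ : y ∉ mp σ (S.erase w) := fun h => hy (hQV h)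
    have hTV : mp σ T ∈ P3 V := P3_mono hB.1 (mp_mem_P3 hT)
    have hk : χ (mp σ T) ⊆ V := hV.cs _ hTV
    obtain ⟨hV', hE⟩ := hV.addOne (s := insert y (mp σ (S.erase w))) (k := χ (mp σ T)) hy hk (by
      intro E hE hs
      have hsub : mp σ (S.erase w) ⊆ E := by
        intro x hx
        have := (mem_P3.mp hs).1 (mem_insert_of_mem hx)
        rw [mem_insert] at this
        rcases this with rfl | h
        · exact absurd hx hyQ
        · exact h
      have hcard : (mp σ (S.erase w)).card < E.card := by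
        rw [card_mp, hSc, (mem_P3.mp hE).2]; norm_num
      obtain ⟨c, hcE, hcQ⟩ := exists_mem_notMem_of_card_lt_card hcard
      have hEq : E = insert c (mp σ (S.erase w)) := by
        symm
        apply eq_of_subset_of_card_le (insert_subset hcE hsub)
        rw [card_insert_of_notMem hcQ, card_mp, hSc, (mem_P3.mp hE).2]
      rw [hEq]
      exact hex c ((mem_P3.mp hE).1 hcE) hcQ)
    set χ' := one χ y (insert y (mp σ (S.erase w))) (χ (mp σ T)) with hχ'
    have hagr := hE.agr
    have hSV : S ∈ P3 V := P3_mono (insert_subset hw hA.1) hS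
    have hTV' : T ∈ P3 V := P3_mono hA.1 hT
    obtain ⟨τ, h1, h2, h3, h4⟩ := step1a hV' (hE.strong hA) (hE.strong hB)
      (hI.agr hagr hA.1 hB.1) (mem_insert_of_mem hw) hwA hS hwS hT
      (by rw [hagr S hSV, hagr T hTV', hc]) (mem_insert_self y V) hyQ
      (by
        rw [hagr _ hTV, hχ']
        unfold one
        rw [if_pos (mem_insert_self _ _), if_pos rfl])
    exact ⟨_, _, τ, hV', hE, h1, h2, h3, h4⟩

end H487A
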