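import Pool.Agent.H487A.Step1

set_option autoImplicit false

/-!
# Free amalgamation step
-/

namespace H487A

open Finset

/-- fresh images -/
theorem exists_fresh (σ : Equiv.Perm ℕ) (A W V : FS) (hAW : Disjoint A W) :
    ∃ τ : Equiv.Perm ℕ, (∀ a ∈ A, τ a = σ a) ∧ ∀ w ∈ W, τ w ∉ V := by
  classical
  induction W using Finset.induction_on with
  | empty => exact ⟨σ, fun _ _ => rfl, by simp⟩
  | insert w W hw ih =>
    rw [disjoint_insert_right] at hAW
    obtain ⟨τ, h1, h2⟩ := ih hAW.2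
    obtain ⟨z, hz⟩ := Infinite.exists_notMem_finset (V ∪ mp τ (insert w (A ∪ W)))
    rw [notMem_union] at hz
    have hzz : ∀ x ∈ insert w (A ∪ W), τ x ≠ z := by
      intro x hx h
      exact hz.2 (h ▸ mem_mp_apply.mpr hx)
    refine ⟨Equiv.swap (τ w) z * τ, ?_, ?_⟩
    · intro a ha
      rw [Equiv.Perm.mul_apply, Equiv.swap_apply_of_ne_of_ne, h1 a ha]
      · intro h
        exact hAW.1 (τ.injective h ▸ ha)
      · exact hzz a (by simp [ha])
    · intro x hx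
      rw [mem_insert] at hx
      rw [Equiv.Perm.mul_apply]
      rcases hx with rfl | hx
      · rw [Equiv.swap_apply_left]; exact hz.1
      · rw [Equiv.swap_apply_of_ne_of_ne]
        · exact h2 x hx
        · intro h
          exact hw (τ.injective h ▸ hx)
        · exact hzz x (by simp [hx])

/-- counting for a union of two sets of triples -/
theorem amal_count (χ : FS → FS) (E F : FS) :
    ((E ∪ F).card : ℤ) - rr χ (P3 E ∪ P3 F) = del χ E + del χ F - del χ (E ∩ F) -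
      ((((P3 E).image χ ∩ (P3 F).image χ).card : ℤ) - ((P3 (E ∩ F)).image χ).card) := by
  unfold del rr
  have h1 := card_union_add_card_inter E F
  have h2 := card_union_add_card_inter (P3 E) (P3 F)
  have h3 := card_union_add_card_inter ((P3 E).image χ) ((P3 F).image χ)
  rw [P3_inter] at h2
  rw [image_union]
  have h1' : ((E ∪ F).card : ℤ) + (E ∩ F).card = E.card + F.card := by exact_mod_cast h1
  have h2' : ((P3 E ∪ P3 F).card : ℤ) + (P3 (E ∩ F)).card = (P3 E).card + (P3 F).card := by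
    exact_mod_cast h2
  have h3' : (((P3 E).image χ ∪ (P3 F).image χ).card : ℤ) +
      ((P3 E).image χ ∩ (P3 F).image χ).card = ((P3 E).image χ).card + ((P3 F).image χ).card := by
    exact_mod_cast h3
  linarith

theorem str_bound {χ : FS → FS} {B V : FS} (h : Str χ B V) {E : FS} (hE : E ⊆ V) :
    del χ (E ∩ B) + ((((P3 E).image χ ∩ (P3 B).image χ).card : ℤ) -
      ((P3 (E ∩ B)).image χ).card) ≤ del χ E := by
  have h1 := h.2 (E ∪ B) subset_union_right (union_subset hE h.1)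
  have h2 := amal_count χ E B
  have h3 : rr χ (P3 E ∪ P3 B) ≤ rr χ (P3 (E ∪ B)) :=
    rr_mono χ (union_subset (P3_mono subset_union_left) (P3_mono subset_union_right))
  have h4 : del χ (E ∪ B) = (E ∪ B).card - rr χ (P3 (E ∪ B)) := rfl
  linarith

open Classical in
/-- colours of the triples in the copy -/
noncomputable def psi (χ : FS → FS) (σ τ : Equiv.Perm ℕ) (A A₁ : FS) (k : FS) : FS :=
  if h : ∃ T, T ∈ P3 A ∧ χ T = k then χ (mp σ h.choose)
  else mp τ (if h' : ∃ R, R ∈ P3 A₁ ∧ χ R = k then h'.choose else ∅)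

open Classical in
/-- the colouring of the amalgam -/
noncomputable def two (χ : FS → FS) (σ τ : Equiv.Perm ℕ) (A A₁ V : FS) (T : FS) : FS :=
  if T ⊆ V then χ T else if T ⊆ mp τ A₁ then psi χ σ τ A A₁ (χ (mp τ⁻¹ T)) else T

/-- the data of the amalgamation step -/
structure D2 (χ : FS → FS) (σ τ : Equiv.Perm ℕ) (A A₁ V : FS) : Prop where
  hV : Stage V χ
  hA : Str χ A V
  hB : Str χ (mp σ A) V
  hI : Iso χ σ A
  hA1 : A ⊆ A₁
  hA1V : A₁ ⊆ V
  hcl : ∀ w ∈ A₁, w ∉ A → ∀ S ∈ P3 (insert w A), w ∈ S → ∀ T ∈ P3 A, χ S ≠ χ T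
  hτ : ∀ a ∈ A, τ a = σ a
  hfr : ∀ w ∈ A₁, w ∉ A → τ w ∉ V

section
variable {χ : FS → FS} {σ τ : Equiv.Perm ℕ} {A A₁ V : FS}

theorem D2.inter (d : D2 χ σ τ A A₁ V) : V ∩ mp τ A₁ = mp σ A := by
  ext x
  rw [mem_inter, mem_mp (σ := τ)]
  constructor
  · rintro ⟨h1, h2⟩
    set a := τ⁻¹ x with ha
    have hx : x = τ a := by rw [ha]; simp
    by_cases haA : a ∈ A
    · rw [hx, d.hτ a haA]; exact mem_mp_apply.mpr haA
    · exact absurd (hx ▸ h1) (d.hfr a h2 haA)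
  · intro h
    refine ⟨d.hB.1 h, ?_⟩
    rw [← mp_congr d.hτ, mem_mp] at h
    exact d.hA1 h

theorem D2.psi_old (d : D2 χ σ τ A A₁ V) {T : FS} {k : FS} (hT : T ∈ P3 A) (h : χ T = k) :
    psi χ σ τ A A₁ k = χ (mp σ T) := by
  classical
  unfold psi
  have hex : ∃ T, T ∈ P3 A ∧ χ T = k := ⟨T, hT, h⟩
  rw [dif_pos hex]
  exact (d.hI _ hex.choose_spec.1 T hT).mp (by rw [hex.choose_spec.2, h])

theorem D2.psi_new (d : D2 χ σ τ A A₁ V) {T : FS} (hT : T ∈ P3 A₁)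
    (h : ¬ ∃ S, S ∈ P3 A ∧ χ S = χ T) :
    ∃ R ∈ P3 A₁, χ R = χ T ∧ ¬ R ⊆ A ∧ psi χ σ τ A A₁ (χ T) = mp τ R := by
  classical
  unfold psi
  have hex : ∃ R, R ∈ P3 A₁ ∧ χ R = χ T := ⟨T, hT, rfl⟩
  rw [dif_neg h, dif_pos hex]
  refine ⟨hex.choose, hex.choose_spec.1, hex.choose_spec.2, ?_, rfl⟩
  intro h1
  exact h ⟨hex.choose, mem_P3.mpr ⟨h1, (mem_P3.mp hex.choose_spec.1).2⟩, hex.choose_spec.2⟩

theorem D2.agr (_d : D2 χ σ τ A A₁ V) : Agr χ (two χ σ τ A A₁ V) V := by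
  intro T hT
  unfold two
  rw [if_pos (mem_P3.mp hT).1]

theorem D2.not_sub (d : D2 χ σ τ A A₁ V) {R : FS} (hR : R ⊆ A₁) (h : ¬ R ⊆ A) :
    ¬ mp τ R ⊆ V := by
  intro h1
  rw [not_subset] at h
  obtain ⟨x, hx, hxA⟩ := h
  exact d.hfr x (hR hx) hxA (h1 (mem_mp_apply.mpr hx))

theorem D2.two_B (d : D2 χ σ τ A A₁ V) {T : FS} (hT : T ∈ P3 A₁) :
    two χ σ τ A A₁ V (mp τ T) = psi χ σ τ A A₁ (χ T) := by
  classical
  unfold two
  by_cases h : T ⊆ A
  · have hTA : T ∈ P3 A := mem_P3.mpr ⟨h, (mem_P3.mp hT).2⟩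
    have h1 : mp τ T = mp σ T := mp_congr (fun x hx => d.hτ x (h hx))
    rw [d.psi_old hTA rfl, h1, if_pos (((mp_subset σ).mpr h).trans d.hB.1)]
  · rw [if_neg (d.not_sub (mem_P3.mp hT).1 h), if_pos ((mp_subset τ).mpr (mem_P3.mp hT).1),
      mp_inv_mp]

theorem D2.psi_inj (d : D2 χ σ τ A A₁ V) {T T' : FS} (hT : T ∈ P3 A₁) (hT' : T' ∈ P3 A₁)
    (h : psi χ σ τ A A₁ (χ T) = psi χ σ τ A A₁ (χ T')) : χ T = χ T' := by
  by_cases h1 : ∃ S, S ∈ P3 A ∧ χ S = χ T
  · obtain ⟨S, hS, hS'⟩ := h1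
    rw [d.psi_old hS hS'] at h
    by_cases h2 : ∃ S, S ∈ P3 A ∧ χ S = χ T'
    · obtain ⟨U, hU, hU'⟩ := h2
      rw [d.psi_old hU hU'] at h
      rw [← hS', ← hU']
      exact (d.hI S hS U hU).mpr h
    · obtain ⟨R, hR1, hR2, hR3, hR4⟩ := d.psi_new hT' h2
      rw [hR4] at h
      have := d.hV.cs _ (P3_mono d.hB.1 (mp_mem_P3 hS))
      rw [h] at this
      exact absurd this (d.not_sub (mem_P3.mp hR1).1 hR3)
  · obtain ⟨R, hR1, hR2, hR3, hR4⟩ := d.psi_new hT h1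
    rw [hR4] at h
    by_cases h2 : ∃ S, S ∈ P3 A ∧ χ S = χ T'
    · obtain ⟨U, hU, hU'⟩ := h2
      rw [d.psi_old hU hU'] at h
      have := d.hV.cs _ (P3_mono d.hB.1 (mp_mem_P3 hU))
      rw [← h] at this
      exact absurd this (d.not_sub (mem_P3.mp hR1).1 hR3)
    · obtain ⟨R', hR1', hR2', hR3', hR4'⟩ := d.psi_new hT' h2
      rw [hR4', mp_inj] at h
      rw [← hR2, ← hR2', h]

theorem D2.iso (d : D2 χ σ τ A A₁ V) : Iso (two χ σ τ A A₁ V) τ A₁ := by
  intro T hT T' hT'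
  rw [d.agr T (P3_mono d.hA1V hT), d.agr T' (P3_mono d.hA1V hT'), d.two_B hT, d.two_B hT']
  exact ⟨fun h => by rw [h], d.psi_inj hT hT'⟩

theorem D2.shared (d : D2 χ σ τ A A₁ V) {T T' : FS} (hT : T ∈ P3 V) (hT' : T' ∈ P3 A₁)
    (h : two χ σ τ A A₁ V T = two χ σ τ A A₁ V (mp τ T')) : ∃ S ∈ P3 A, χ S = χ T' := by
  by_contra h2
  push Not at h2
  obtain ⟨R, hR1, hR2, hR3, hR4⟩ := d.psi_new hT' (by rintro ⟨S, hS, hS'⟩; exact h2 S hS hS')
  rw [d.agr T hT, d.two_B hT', hR4] at h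
  have := d.hV.cs T hT
  rw [h] at this
  exact d.not_sub (mem_P3.mp hR1).1 hR3 this

theorem D2.str_B (d : D2 χ σ τ A A₁ V) : Str (two χ σ τ A A₁ V) (mp σ A) (mp τ A₁) := by
  have hAA : Str χ A A₁ := d.hA.mid d.hA1 d.hA1V
  have hi := d.iso
  have ht : ∀ E ⊆ A₁, del (two χ σ τ A A₁ V) (mp τ E) = del χ E := by
    intro E hE
    rw [(hi.mono hE).del, del_congr d.agr (hE.trans d.hA1V)]
  have hm : mp σ A = mp τ A := (mp_congr d.hτ).symm
  rw [hm]
  refine ⟨(mp_subset τ).mpr d.hA1, fun C h1 h2 => ?_⟩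
  have hC : C = mp τ (mp τ⁻¹ C) := (mp_mp_inv τ C).symm
  have h2' : mp τ⁻¹ C ⊆ A₁ := by rw [← mp_subset τ, mp_mp_inv]; exact h2
  have h1' : A ⊆ mp τ⁻¹ C := by rw [← mp_subset τ, mp_mp_inv]; exact h1
  rw [hC, ht _ h2', ht A d.hA1]
  exact hAA.2 _ h1' h2'

theorem D2.lower (d : D2 χ σ τ A A₁ V) {D : FS} (hD : D ⊆ V ∪ mp τ A₁) :
    (D.card : ℤ) - rr (two χ σ τ A A₁ V) (P3 (D ∩ V) ∪ P3 (D ∩ mp τ A₁)) ≤
      del (two χ σ τ A A₁ V) D := by
  classical
  set χ' := two χ σ τ A A₁ V with hχ'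
  set M := (P3 D).filter (fun T => ¬ T ⊆ V ∧ ¬ T ⊆ mp τ A₁) with hM
  have m1 : ∀ T ∈ M, χ' T = T := by
    intro T hT
    rw [hM, mem_filter] at hT
    rw [hχ']
    unfold two
    rw [if_neg hT.2.1, if_neg hT.2.2]
  have m2 : ∀ T ∈ M, ∀ T' ∈ P3 (D ∩ V) ∪ P3 (D ∩ mp τ A₁), χ' T' ≠ T := by
    intro T hT T' hT' h
    rw [hM, mem_filter] at hT
    rw [mem_union] at hT'
    rcases hT' with hT' | hT'
    · have h1 : T' ∈ P3 V := P3_mono inter_subset_right hT'
      rw [hχ', d.agr T' h1] at h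
      exact hT.2.1 (h ▸ d.hV.cs T' h1)
    · have h1 : T' ∈ P3 (mp τ A₁) := P3_mono inter_subset_right hT'
      rw [P3_mp, mem_image] at h1
      obtain ⟨T₁, h2, rfl⟩ := h1
      rw [hχ', d.two_B h2] at h
      by_cases h3 : ∃ S, S ∈ P3 A ∧ χ S = χ T₁
      · obtain ⟨S, hS, hS'⟩ := h3
        rw [d.psi_old hS hS'] at h
        exact hT.2.1 (h ▸ d.hV.cs _ (P3_mono d.hB.1 (mp_mem_P3 hS)))
      · obtain ⟨R, hR1, hR2, hR3, hR4⟩ := d.psi_new h2 h3
        rw [hR4] at h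
        exact hT.2.2 (h ▸ (mp_subset τ).mpr (mem_P3.mp hR1).1)
  have hsub : P3 D ⊆ (P3 (D ∩ V) ∪ P3 (D ∩ mp τ A₁)) ∪ M := by
    intro T hT
    rw [mem_union, mem_union, hM, mem_filter, mem_P3, mem_P3, subset_inter_iff,
      subset_inter_iff]
    have := mem_P3.mp hT
    tauto
  have h1 := (rr_mono χ' hsub).trans (rr_fresh χ' _ M m1 m2)
  unfold del
  linarith

theorem D2.im_shared (d : D2 χ σ τ A A₁ V) {T T' : FS} (hT : T ∈ P3 V)
    (hT' : T' ∈ P3 (mp τ A₁)) (h : two χ σ τ A A₁ V T = two χ σ τ A A₁ V T') :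
    two χ σ τ A A₁ V T ∈ (P3 (mp σ A)).image (two χ σ τ A A₁ V) := by
  rw [P3_mp, mem_image] at hT'
  obtain ⟨T₁, h2, rfl⟩ := hT'
  obtain ⟨S, hS, hS'⟩ := d.shared hT h2 h
  rw [mem_image]
  refine ⟨mp σ S, mp_mem_P3 hS, ?_⟩
  rw [h, d.two_B h2, d.psi_old hS hS', d.agr _ (P3_mono d.hB.1 (mp_mem_P3 hS))]

/-- the main inequalities for subsets of the amalgam -/
theorem D2.main (d : D2 χ σ τ A A₁ V) {D : FS} (hD : D ⊆ V ∪ mp τ A₁) :
    del (two χ σ τ A A₁ V) (D ∩ V) ≤ del (two χ σ τ A A₁ V) D ∧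
    del (two χ σ τ A A₁ V) (D ∩ mp τ A₁) ≤ del (two χ σ τ A A₁ V) D := by
  set χ' := two χ σ τ A A₁ V with hχ'
  have h1 := d.lower hD
  have hu : (D ∩ V) ∪ (D ∩ mp τ A₁) = D := by
    rw [← inter_union_distrib_left]
    exact inter_eq_left.mpr hD
  have hi : (D ∩ V) ∩ (D ∩ mp τ A₁) = D ∩ mp σ A := by
    rw [← inter_inter_distrib_left, d.inter]
  have h2 := amal_count χ' (D ∩ V) (D ∩ mp τ A₁)
  rw [hu, hi] at h2
  have e1 : (D ∩ V) ∩ mp σ A = D ∩ mp σ A := by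
    rw [inter_assoc, inter_eq_right.mpr d.hB.1]
  have e2 : (D ∩ mp τ A₁) ∩ mp σ A = D ∩ mp σ A := by
    have hmB : mp σ A ⊆ mp τ A₁ := by rw [← d.inter]; exact inter_subset_right
    rw [inter_assoc, inter_eq_right.mpr hmB]
  have h3 := str_bound (d.hB.congr d.agr) (E := D ∩ V) inter_subset_right
  have h4 := str_bound d.str_B (E := D ∩ mp τ A₁) inter_subset_right
  rw [e1] at h3
  rw [e2] at h4
  rw [← hχ'] at h1 h3 h4
  have k1 : ((P3 (D ∩ V)).image χ' ∩ (P3 (D ∩ mp τ A₁)).image χ') ⊆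
      ((P3 (D ∩ V)).image χ' ∩ (P3 (mp σ A)).image χ') := by
    intro c hc
    rw [mem_inter, mem_image, mem_image] at hc
    obtain ⟨⟨T, hT, rfl⟩, T', hT', hTT⟩ := hc
    rw [mem_inter]
    refine ⟨mem_image_of_mem _ hT, ?_⟩
    exact d.im_shared (P3_mono inter_subset_right hT) (P3_mono inter_subset_right hT') hTT.symm
  have k2 : ((P3 (D ∩ V)).image χ' ∩ (P3 (D ∩ mp τ A₁)).image χ') ⊆
      ((P3 (D ∩ mp τ A₁)).image χ' ∩ (P3 (mp σ A)).image χ') := by
    intro c hc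
    have h5 := k1 hc
    rw [mem_inter] at hc h5 ⊢
    exact ⟨hc.2, h5.2⟩
  have k1' := card_le_card k1
  have k2' := card_le_card k2
  constructor
  · have : (((P3 (D ∩ V)).image χ' ∩ (P3 (D ∩ mp τ A₁)).image χ').card : ℤ) ≤
      ((P3 (D ∩ mp τ A₁)).image χ' ∩ (P3 (mp σ A)).image χ').card := by exact_mod_cast k2'
    linarith
  · have : (((P3 (D ∩ V)).image χ' ∩ (P3 (D ∩ mp τ A₁)).image χ').card : ℤ) ≤
      ((P3 (D ∩ V)).image χ' ∩ (P3 (mp σ A)).image χ').card := by exact_mod_cast k1'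
    linarith

theorem D2.stage (d : D2 χ σ τ A A₁ V) : Stage (V ∪ mp τ A₁) (two χ σ τ A A₁ V) := by
  refine ⟨?_, ?_⟩
  · intro D hD h4
    obtain ⟨h1, h2⟩ := d.main hD
    by_cases c1 : 4 ≤ (D ∩ V).card
    · have h3 := d.hV.p4 (D ∩ V) inter_subset_right c1
      rw [← del_congr d.agr inter_subset_right] at h3
      exact h3.trans h1
    by_cases c2 : 4 ≤ (D ∩ mp τ A₁).card
    · have h5 : mp τ⁻¹ (D ∩ mp τ A₁) ⊆ A₁ := by
        rw [← mp_subset τ, mp_mp_inv]; exact inter_subset_right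
      have h3 := d.hV.p4 (mp τ⁻¹ (D ∩ mp τ A₁)) (h5.trans d.hA1V) (by rw [card_mp]; exact c2)
      rw [← del_congr d.agr (h5.trans d.hA1V), ← (d.iso.mono h5).del, mp_mp_inv] at h3
      exact h3.trans h2
    -- both parts have at most three elements
    push Not at c1 c2
    have hu : (D ∩ V) ∪ (D ∩ mp τ A₁) = D := by
      rw [← inter_union_distrib_left]
      exact inter_eq_left.mpr hD
    have hlow := d.lower hD
    have hP1 : ∀ T ∈ P3 (D ∩ V), T = D ∩ V := by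
      intro T hT
      rw [mem_P3] at hT
      exact eq_of_subset_of_card_le hT.1 (by omega)
    have hP2 : ∀ T ∈ P3 (D ∩ mp τ A₁), T = D ∩ mp τ A₁ := by
      intro T hT
      rw [mem_P3] at hT
      exact eq_of_subset_of_card_le hT.1 (by omega)
    have hS : P3 (D ∩ V) ∪ P3 (D ∩ mp τ A₁) ⊆ {D ∩ V, D ∩ mp τ A₁} := by
      intro T hT
      rw [mem_union] at hT
      rw [mem_insert, mem_singleton]
      rcases hT with hT | hT
      · left; exact hP1 T hT
      · right; exact hP2 T hT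
    have hr1 : rr (two χ σ τ A A₁ V) (P3 (D ∩ V) ∪ P3 (D ∩ mp τ A₁)) ≤
        rr (two χ σ τ A A₁ V) {D ∩ V, D ∩ mp τ A₁} := rr_mono _ hS
    have h4' : (4 : ℤ) ≤ D.card := by exact_mod_cast h4
    by_cases hgood : (D ∩ V).card = 3 ∧ (D ∩ mp τ A₁).card = 3 ∧
        two χ σ τ A A₁ V (D ∩ V) = two χ σ τ A A₁ V (D ∩ mp τ A₁)
    · obtain ⟨g1, g2, g3⟩ := hgood
      have hT1 : D ∩ V ∈ P3 V := mem_P3.mpr ⟨inter_subset_right, g1⟩
      have hT2 : D ∩ mp τ A₁ ∈ P3 (mp τ A₁) := mem_P3.mpr ⟨inter_subset_right, g2⟩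
      have hT2' := hT2
      rw [P3_mp, mem_image] at hT2'
      obtain ⟨T₁, hT₁, hT₁e⟩ := hT2'
      obtain ⟨S, hS1, hS2⟩ := d.shared hT1 hT₁ (by rw [hT₁e]; exact g3)
      -- the two triples share at most one point
      have hshare : ((D ∩ V) ∩ (D ∩ mp τ A₁)).card ≤ 1 := by
        by_contra hge
        push Not at hge
        have hi : (D ∩ V) ∩ (D ∩ mp τ A₁) = D ∩ mp σ A := by
          rw [← inter_inter_distrib_left, d.inter]
        rw [hi] at hge
        -- `T₁ ∩ A` has at least two elements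
        have hTA : T₁ ∩ A = mp τ⁻¹ (D ∩ mp σ A) := by
          rw [← mp_inj τ, mp_mp_inv]
          ext x
          rw [mem_mp, mem_inter, mem_inter]
          have a1 : τ⁻¹ x ∈ T₁ ↔ x ∈ D ∩ mp τ A₁ := by rw [← hT₁e, mem_mp]
          have a2 : τ⁻¹ x ∈ A ↔ x ∈ mp σ A := by rw [← mp_congr d.hτ, mem_mp]
          rw [a1, a2, mem_inter]
          constructor
          · rintro ⟨⟨b1, _⟩, b2⟩; exact ⟨b1, b2⟩
          · rintro ⟨b1, b2⟩
            refine ⟨⟨b1, ?_⟩, b2⟩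
            rw [← d.inter] at b2
            exact (mem_inter.mp b2).2
        have hTc : 2 ≤ (T₁ ∩ A).card := by rw [hTA, card_mp]; exact hge
        have hT₁c := (mem_P3.mp hT₁).2
        have hnotA : ¬ T₁ ⊆ A := by
          intro hsub
          have b1 : D ∩ mp τ A₁ ⊆ D ∩ V := by
            rw [← hT₁e]
            intro x hx
            have b2 : x ∈ D := by rw [hT₁e] at hx; exact (mem_inter.mp hx).1
            have b3 : x ∈ mp σ A := by
              rw [← mp_congr d.hτ]; exact (mp_subset τ).mpr hsub hx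
            exact mem_inter.mpr ⟨b2, d.hB.1 b3⟩
          have b4 := card_le_card (union_subset (Subset.refl (D ∩ V)) b1)
          rw [hu] at b4
          omega
        rw [not_subset] at hnotA
        obtain ⟨w, hw, hwA⟩ := hnotA
        have hTs : T₁ ⊆ insert w A := by
          have b1 : insert w (T₁ ∩ A) = T₁ := by
            apply eq_of_subset_of_card_le (insert_subset hw inter_subset_left)
            rw [card_insert_of_notMem (fun h => hwA (mem_inter.mp h).2)]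
            omega
          rw [← b1]
          exact insert_subset_insert _ inter_subset_right
        exact d.hcl w ((mem_P3.mp hT₁).1 hw) hwA T₁ (mem_P3.mpr ⟨hTs, hT₁c⟩) hw S hS1 hS2.symm
      have hcard := card_union_add_card_inter (D ∩ V) (D ∩ mp τ A₁)
      rw [hu, g1, g2] at hcard
      have hne : D ∩ V ≠ D ∩ mp τ A₁ := by
        intro h
        rw [← h, inter_self] at hshare
        omega
      have hr2 : rr (two χ σ τ A A₁ V) {D ∩ V, D ∩ mp τ A₁} ≤ 1 := by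
        unfold rr
        rw [card_pair hne]
        have : 1 ≤ (({D ∩ V, D ∩ mp τ A₁} : Finset FS).image (two χ σ τ A A₁ V)).card := by
          apply card_pos.mpr
          exact ⟨_, mem_image_of_mem _ (mem_insert_self _ _)⟩
        push_cast
        have : (1 : ℤ) ≤ (({D ∩ V, D ∩ mp τ A₁} : Finset FS).image (two χ σ τ A A₁ V)).card := by
          exact_mod_cast this
        linarith
      have h5 : (5 : ℤ) ≤ D.card := by
        have : 5 ≤ D.card := by omega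
        exact_mod_cast this
      linarith
    · -- no relation
      have hr0 : rr (two χ σ τ A A₁ V) (P3 (D ∩ V) ∪ P3 (D ∩ mp τ A₁)) ≤ 0 := by
        have hinj : Set.InjOn (two χ σ τ A A₁ V)
            ((P3 (D ∩ V) ∪ P3 (D ∩ mp τ A₁) : Finset FS) : Set FS) := by
          intro T hT T' hT' h
          rw [mem_coe, mem_union] at hT hT'
          have q1 : ∀ X ∈ P3 (D ∩ V), (D ∩ V).card = 3 := by
            intro X hX; rw [← hP1 X hX]; exact (mem_P3.mp hX).2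
          have q2 : ∀ X ∈ P3 (D ∩ mp τ A₁), (D ∩ mp τ A₁).card = 3 := by
            intro X hX; rw [← hP2 X hX]; exact (mem_P3.mp hX).2
          rcases hT with hT | hT <;> rcases hT' with hT' | hT'
          · rw [hP1 T hT, hP1 T' hT']
          · exfalso
            apply hgood
            refine ⟨q1 T hT, q2 T' hT', ?_⟩
            rw [← hP1 T hT, ← hP2 T' hT']; exact h
          · exfalso
            apply hgood
            refine ⟨q1 T' hT', q2 T hT, ?_⟩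
            rw [← hP1 T' hT', ← hP2 T hT]; exact h.symm
          · rw [hP2 T hT, hP2 T' hT']
        unfold rr
        rw [card_image_of_injOn hinj]
        simp
      linarith
  · intro T hT
    classical
    unfold two
    split_ifs with h1 h2
    · exact (d.hV.cs T (mem_P3.mpr ⟨h1, (mem_P3.mp hT).2⟩)).trans subset_union_left
    · have h3 : mp τ⁻¹ T ∈ P3 A₁ := by
        rw [mem_P3, card_mp]
        refine ⟨?_, (mem_P3.mp hT).2⟩
        rw [← mp_subset τ, mp_mp_inv]; exact h2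
      by_cases h4 : ∃ S, S ∈ P3 A ∧ χ S = χ (mp τ⁻¹ T)
      · obtain ⟨S, hS, hS'⟩ := h4
        rw [d.psi_old hS hS']
        exact (d.hV.cs _ (P3_mono d.hB.1 (mp_mem_P3 hS))).trans subset_union_left
      · obtain ⟨R, hR1, hR2, hR3, hR4⟩ := d.psi_new h3 h4
        rw [hR4]
        exact ((mp_subset τ).mpr (mem_P3.mp hR1).1).trans subset_union_right
    · exact (mem_P3.mp hT).1

theorem D2.ext (d : D2 χ σ τ A A₁ V) : Ext V χ (V ∪ mp τ A₁) (two χ σ τ A A₁ V) := by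
  refine ⟨subset_union_left, d.agr, subset_union_left, fun D h1 h2 => ?_⟩
  have h3 := (d.main h2).1
  rw [inter_eq_right.mpr h1] at h3
  exact h3

theorem D2.str' (d : D2 χ σ τ A A₁ V) :
    Str (two χ σ τ A A₁ V) (mp τ A₁) (V ∪ mp τ A₁) := by
  refine ⟨subset_union_right, fun D h1 h2 => ?_⟩
  have h3 := (d.main h2).2
  rw [inter_eq_right.mpr h1] at h3
  exact h3

end

/-- extension of a partial isomorphism between strong sets -/
theorem step (n : ℕ) : ∀ (χ : FS → FS) (V A A₁ : FS) (σ : Equiv.Perm ℕ), (A₁ \ A).card = n →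
    Stage V χ → Str χ A V → Str χ (mp σ A) V → Iso χ σ A → A ⊆ A₁ → A₁ ⊆ V →
    ∃ (V' : FS) (χ' : FS → FS) (τ : Equiv.Perm ℕ), Stage V' χ' ∧ Ext V χ V' χ' ∧
      (∀ a ∈ A, τ a = σ a) ∧ Iso χ' τ A₁ ∧ Str χ' (mp τ A₁) V' := by
  induction n with
  | zero =>
    intro χ V A A₁ σ hn hV hA hB hI hA1 hA1V
    have h1 : A₁ = A := by
      apply Subset.antisymm _ hA1
      rw [card_eq_zero, sdiff_eq_empty_iff_subset] at hn
      exact hn
    subst h1
    exact ⟨V, χ, σ, hV, Ext.refl _ _, fun _ _ => rfl, hI, hB⟩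
  | succ n ih =>
    intro χ V A A₁ σ hn hV hA hB hI hA1 hA1V
    by_cases hcl : ∀ w ∈ A₁, w ∉ A → ∀ S ∈ P3 (insert w A), w ∈ S → ∀ T ∈ P3 A, χ S ≠ χ T
    · obtain ⟨τ, h1, h2⟩ := exists_fresh σ A (A₁ \ A) V disjoint_sdiff
      have d : D2 χ σ τ A A₁ V := ⟨hV, hA, hB, hI, hA1, hA1V, hcl, h1,
        fun w hw hwA => h2 w (mem_sdiff.mpr ⟨hw, hwA⟩)⟩
      exact ⟨_, _, τ, d.stage, d.ext, h1, d.iso, d.str'⟩
    · push Not at hcl
      obtain ⟨w, hw, hwA, S, hS, hwS, T, hT, hc⟩ := hcl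
      obtain ⟨V', χ', τ, h1, h2, h3, h4, h5, h6⟩ := step1 hV hA hB hI (hA1V hw) hwA hS hwS hT hc
      have hn' : (A₁ \ insert w A).card = n := by
        have : A₁ \ insert w A = (A₁ \ A).erase w := by
          ext x; simp only [mem_sdiff, mem_insert, mem_erase]; tauto
        rw [this, card_erase_of_mem (mem_sdiff.mpr ⟨hw, hwA⟩), hn]
        rfl
      obtain ⟨V'', χ'', ρ, g1, g2, g3, g4, g5⟩ := ih χ' V' (insert w A) A₁ τ hn' h1 h5 h6 h4
        (insert_subset hw hA1) (hA1V.trans h2.sub)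
      exact ⟨V'', χ'', ρ, g1, h2.trans g2, fun a ha => by
        rw [g3 a (mem_insert_of_mem ha), h3 a ha], g4, g5⟩

end H487A
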